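import Pool.Agent.Lib.H74G.Defs

/-!
# Chunk B2 (S)
`deriv_ne`: if `deriv f = 0` everywhere then `f` is constant `= a` (`is_const_of_deriv_eq_zero`), `a ∈ K` (`K` is nonempty and invariant), `a` is recurrent (`f^[n] a = a`), and
`‖deriv f^[n] a‖ ≤ 1` for all `n` (`0` for `n ≥ 1`), against `hrec` with `C = 1`. `crit_finite`: otherwise the zeros of the entire function `deriv f` in the compact set `K`
accumulate (`Set.Infinite.exists_accPt_of_subset_isCompact`), and `deriv f = 0` on `ℂ` (identity theorem on `univ`).
-/

set_option autoImplicit false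

open Set Filter Topology Metric

namespace H74G

open H74F

theorem crit_finite {f : ℂ → ℂ} {K : Set ℂ} (h : Dc f K) : (crit f K).Finite := by
  by_contra hinf
  have hinf' : (crit f K).Infinite := hinf
  obtain ⟨x, -, hx⟩ := hinf'.exists_accPt_of_subset_isCompact h.cpt (fun c hc => hc.1)
  obtain ⟨z, hz⟩ := h.nc
  have hd : Differentiable ℂ (deriv f) := by
    have := h.entire.contDiff (n := 2)
    exact (this.differentiable_deriv_two)
  have han : AnalyticOnNhd ℂ (deriv f) univ := fun y _ => hd.analyticAt y
  have hfr : ∃ᶠ y in 𝓝[≠] x, deriv f y = 0 := by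
    rw [accPt_iff_frequently_nhdsNE] at hx
    exact hx.mono fun y hy => hy.2
  have := han.eqOn_zero_of_preconnected_of_frequently_eq_zero isPreconnected_univ (mem_univ x) hfr
  exact hz (this (mem_univ z))

end H74G
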