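import Pool.Agent.Lib.H74G.Defs
import Pool.Agent.Lib.H74G.B5

/-!
# Chunk C1 (S)
Chain rule: `f^[n + m] = f^[m] ∘ f^[n]`, `deriv (f^[m] ∘ f^[n]) y = deriv f^[m] (f^[n] y) * deriv f^[n] y`; `sigma ≥ 1` so it is not `0`. `GG_pow`: induction on `n` with `GG_add` and `GG_pos`-type facts
(`GG f K d 0 y = 1`).
-/

set_option autoImplicit false

open Set Filter Topology Metric

namespace H74G

open H74F

private theorem C1_pos {f : ℂ → ℂ} {K : Set ℂ} (h : Dc f K) (d : ℝ) (y : ℂ) : 0 < sigma f K d y :=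
  lt_of_lt_of_le one_pos (one_le_sigma h d y)

theorem GG_zero {f : ℂ → ℂ} {K : Set ℂ} (h : Dc f K) (d : ℝ) (y : ℂ) : GG f K d 0 y = 1 := by
  have hs := C1_pos h d y
  unfold GG
  have h1 : deriv f^[0] y = 1 := by
    have : f^[0] = id := Function.iterate_zero f
    rw [this]
    exact deriv_id y
  rw [h1, norm_one, mul_one, Function.iterate_zero, id]
  exact div_self hs.ne'

theorem GG_nonneg {f : ℂ → ℂ} {K : Set ℂ} (h : Dc f K) (d : ℝ) (n : ℕ) (y : ℂ) : 0 ≤ GG f K d n y := by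
  unfold GG
  exact div_nonneg (mul_nonneg (C1_pos h d _).le (norm_nonneg _)) (C1_pos h d _).le

theorem GG_add {f : ℂ → ℂ} {K : Set ℂ} (h : Dc f K) (d : ℝ) (n m : ℕ) (y : ℂ) :
    GG f K d (n + m) y = GG f K d n y * GG f K d m (f^[n] y) := by
  have hit : ∀ k : ℕ, Differentiable ℂ f^[k] := fun k => h.entire.iterate k
  have h1 : f^[n + m] = f^[m] ∘ f^[n] := by
    rw [Nat.add_comm, Function.iterate_add]
  have h2 : deriv f^[n + m] y = deriv f^[m] (f^[n] y) * deriv f^[n] y := by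
    rw [h1]
    exact deriv_comp y (hit m _) (hit n _)
  have h3 : f^[n + m] y = f^[m] (f^[n] y) := by rw [h1]; rfl
  have hs1 := (C1_pos h d y).ne'
  have hs2 := (C1_pos h d (f^[n] y)).ne'
  unfold GG
  rw [h2, h3, norm_mul]
  field_simp

theorem GG_pow {f : ℂ → ℂ} {K : Set ℂ} (h : Dc f K) {d m0 η : ℝ} (hm0 : 0 < m0)
    (hlow : ∀ y, infDist y K < η → y ∉ K → f y ∉ K → m0 ≤ GG f K d 1 y) {n : ℕ} {y : ℂ}
    (hy : ∀ i < n, infDist (f^[i] y) K < η) (hK : ∀ i ≤ n, f^[i] y ∉ K) : m0 ^ n ≤ GG f K d n y := by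
  induction n with
  | zero => rw [GG_zero h, pow_zero]
  | succ n ih =>
    have h1 : m0 ^ n ≤ GG f K d n y := ih (fun i hi => hy i (Nat.lt_succ_of_lt hi)) (fun i hi => hK i (Nat.le_succ_of_le hi))
    have h2 : m0 ≤ GG f K d 1 (f^[n] y) := by
      apply hlow
      · exact hy n (Nat.lt_succ_self n)
      · exact hK n (Nat.le_succ n)
      · have := hK (n + 1) le_rfl
        rwa [Function.iterate_succ_apply'] at this
    rw [GG_add h, pow_succ]
    exact mul_le_mul h1 h2 hm0.le (GG_nonneg h d n y)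

end H74G
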