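import Pool.Agent.Lib.H74G.Defs
import Pool.Agent.Lib.H74G.B5

/-!
# Chunk C3 (L)
The estimate at a point where the derivative of `f^[n]` is not `0`; `δ` and `θ` must not depend on `n`. `θ` from `sigma_len`. `crit f K` is finite (`B2`): `δ0 ∈ (0, 1]` with `2 δ0 ≤ infDist a (PP f c)` for the
`c ∈ crit f K` with `a ∉ PP f c`. `δ := δ0 / 2`. Given `n` with `Λ := ‖deriv f^[n] a‖ > 0` take `r ≤ δ0` with `Λ / 2 ≤ ‖deriv f^[n] y‖` on `ball a r` and
`dist (f^[n] x) (f^[n] y) ≤ 2 Λ dist x y` for `x, y ∈ ball a (2 r)` (continuity of the derivative, `Convex.norm_image_sub_le_of_norm_deriv_le`). For `y ∈ ball a r`, `y ∉ K`, `f^[n] y ∉ K`: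
a chain `l` with `sigma y = tau l y`, `l = l1 ++ l2` (`chain_split` with `a`), `tau l y ≤ δ0⁻¹ tau l2 y` (`tau_drop`). For `c ∈ l2` (`a ∈ PP f c`) the nearest point `y' ∈ PP f c` of `y` has
`dist y y' ≤ dist y a < r`, so `y' ∈ ball a (2 r)` and `infDist (f^[n] y) (PP f c) ≤ 2 Λ infDist y (PP f c) ≤ t * infDist y (PP f c)`, `t = max 1 (2 Λ)`. `tau_scale`:
`sigma (f^[n] y) ≥ tau l2 (f^[n] y) ≥ t^(-bs len) tau l2 y ≥ t^(-(1-θ)) δ0 tau l y` (`t ≥ 1`, `bs len ≤ 1 - θ`).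
-/

set_option autoImplicit false

open Set Filter Topology Metric

namespace H74G

open H74F

theorem h74fc3_unif {S : Set ℂ} (hS : S.Finite) (g : ℂ → ℝ) (hg : ∀ c ∈ S, 0 < g c) :
    ∃ δ : ℝ, 0 < δ ∧ δ ≤ 1 ∧ ∀ c ∈ S, 2 * δ ≤ g c := by
  induction S, hS using Set.Finite.induction_on with
  | empty => exact ⟨1, one_pos, le_rfl, fun c hc => absurd hc (by simp)⟩
  | @insert a s _ _ ih =>
    obtain ⟨δ, h0, h1, h2⟩ := ih fun c hc => hg c (Set.mem_insert_of_mem _ hc)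
    have ha : 0 < g a := hg a (Set.mem_insert _ _)
    refine ⟨min δ (g a / 2), lt_min h0 (by positivity), (min_le_left _ _).trans h1, fun c hc => ?_⟩
    rcases Set.mem_insert_iff.1 hc with rfl | hc
    · have := min_le_right δ (g c / 2)
      linarith
    · have := min_le_left δ (g a / 2)
      have := h2 c hc
      linarith

theorem h74fc3_near {g : ℂ → ℂ} (hg : Differentiable ℂ g) {a : ℂ} (hΛ : 0 < ‖deriv g a‖) :
    ∃ ρ : ℝ, 0 < ρ ∧ (∀ y, dist y a < ρ → ‖deriv g a‖ / 2 ≤ ‖deriv g y‖) ∧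
      ∀ x y, dist x a < ρ → dist y a < ρ → dist (g x) (g y) ≤ 2 * ‖deriv g a‖ * dist x y := by
  have hc : Continuous fun y => ‖deriv g y‖ := by
    have h1 : ContDiff ℂ 1 g := hg.contDiff
    exact (h1.continuous_deriv le_rfl).norm
  have h1 : ∀ᶠ y in 𝓝 a, ‖deriv g a‖ / 2 < ‖deriv g y‖ :=
    hc.continuousAt.eventually (lt_mem_nhds (by linarith))
  have h2 : ∀ᶠ y in 𝓝 a, ‖deriv g y‖ < 2 * ‖deriv g a‖ :=
    hc.continuousAt.eventually (gt_mem_nhds (by linarith))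
  obtain ⟨ρ, hρ, hb⟩ := Metric.eventually_nhds_iff.1 (h1.and h2)
  refine ⟨ρ, hρ, fun y hy => (hb hy).1.le, fun x y hx hy => ?_⟩
  have h3 := (convex_ball a ρ).norm_image_sub_le_of_norm_deriv_le (f := g) (C := 2 * ‖deriv g a‖) (x := y) (y := x)
    (fun z _ => hg z) (fun z hz => (hb (mem_ball.1 hz)).2.le) (mem_ball.2 hy) (mem_ball.2 hx)
  rw [dist_eq_norm, dist_eq_norm]
  exact h3

theorem near_point {f : ℂ → ℂ} {K : Set ℂ} (h : Dc f K) {d : ℝ} (hd : 1 < d) {a : ℂ} (ha : a ∈ K) :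
    ∃ δ θ : ℝ, 0 < δ ∧ 0 < θ ∧ ∀ n : ℕ, 0 < ‖deriv f^[n] a‖ → ∃ r : ℝ, 0 < r ∧
      ∀ y, dist y a < r → y ∉ K → f^[n] y ∉ K →
        δ * ‖deriv f^[n] a‖ * (max 1 (2 * ‖deriv f^[n] a‖)) ^ (-(1 - θ)) ≤ GG f K d n y := by
  obtain ⟨θ, hθ, hθ1, hlen, -⟩ := sigma_len h hd
  have hcl : ∀ c, IsClosed (PP f c) := fun c => isClosed_closure
  have hne : ∀ c, (PP f c).Nonempty := fun c => ⟨f c, map_mem_PP f c⟩
  have hcont : Continuous f := h.entire.continuous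
  obtain ⟨δ0, hδ0, hδ1, hδc⟩ := h74fc3_unif (S := {c | c ∈ crit f K ∧ a ∉ PP f c})
    ((crit_finite h).subset fun c hc => hc.1) (fun c => infDist a (PP f c))
    (fun c hc => ((hcl c).notMem_iff_infDist_pos (hne c)).1 hc.2)
  refine ⟨δ0 / 2, θ, by positivity, hθ, fun n hΛ => ?_⟩
  obtain ⟨ρ, hρ, hlow, hlip⟩ := h74fc3_near (h.entire.iterate n) hΛ
  set Λ := ‖deriv f^[n] a‖ with hΛd
  refine ⟨min δ0 (ρ / 2), lt_min hδ0 (by positivity), fun y hy hyK hgK => ?_⟩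
  have hy1 : dist y a < δ0 := lt_of_lt_of_le hy (min_le_left _ _)
  have hy2 : dist y a < ρ / 2 := lt_of_lt_of_le hy (min_le_right _ _)
  have hyρ : dist y a < ρ := by linarith
  obtain ⟨l, hl, hσ⟩ := exists_sigma h d y
  obtain ⟨l1, l2, rfl, hl2, ha1, ha2⟩ := chain_split hcont hl a
  set t : ℝ := max 1 (2 * Λ) with htd
  have ht1 : 1 ≤ t := le_max_left _ _
  have ht0 : 0 < t := by linarith
  have hdrop : tau f d (l1 ++ l2) y ≤ δ0⁻¹ * tau f d l2 y := by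
    refine tau_drop hd hδ0 hδ1 (fun c hc => ?_) (fun c hc => ?_)
    · have h1 := hδc c ⟨hl.1 c (List.mem_append.2 (Or.inl hc)), ha1 c hc⟩
      have h2 : infDist a (PP f c) ≤ infDist y (PP f c) + dist a y := infDist_le_infDist_add_dist
      rw [dist_comm] at h2
      linarith
    · exact pos_infDist h (hl2.1 c hc).1 hyK
  have hscale : t ^ (-bs d l2.length) * tau f d l2 y ≤ tau f d l2 (f^[n] y) := by
    refine tau_scale hd ht0 fun c hc => ⟨pos_infDist h (hl2.1 c hc).1 hgK, ?_⟩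
    have hcK : c ∈ K := (hl2.1 c hc).1
    have hcomp : IsCompact (PP f c) :=
      h.cpt.of_isClosed_subset (hcl c) (PP_sub h.cpt.isClosed h.maps hcK)
    obtain ⟨y', hy', hdy⟩ := hcomp.exists_infDist_eq_dist (hne c) y
    have h1 : dist y y' < ρ / 2 := by
      rw [← hdy]
      exact lt_of_le_of_lt (infDist_le_dist_of_mem (ha2 c hc)) hy2
    have h2 : dist y' a < ρ := by
      have h3 := dist_triangle y' y a
      rw [dist_comm y' y] at h3
      linarith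
    have h4 : f^[n] y' ∈ PP f c := (PP_maps hcont c).iterate n hy'
    calc infDist (f^[n] y) (PP f c) ≤ dist (f^[n] y) (f^[n] y') := infDist_le_dist_of_mem h4
      _ ≤ 2 * Λ * dist y y' := hlip y y' hyρ h2
      _ ≤ t * dist y y' := mul_le_mul_of_nonneg_right (le_max_right _ _) dist_nonneg
      _ = t * infDist y (PP f c) := by rw [hdy]
  have hpos2 : 0 < tau f d l2 y := tau_pos fun c hc => pos_infDist h (hl2.1 c hc).1 hyK
  have hσ1 : 1 ≤ sigma f K d y := one_le_sigma h d y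
  have h5 : δ0 * sigma f K d y ≤ tau f d l2 y := by
    rw [hσ]
    calc δ0 * tau f d (l1 ++ l2) y ≤ δ0 * (δ0⁻¹ * tau f d l2 y) := mul_le_mul_of_nonneg_left hdrop hδ0.le
      _ = tau f d l2 y := by rw [← mul_assoc, mul_inv_cancel₀ hδ0.ne', one_mul]
  have h6 : t ^ (-(1 - θ)) ≤ t ^ (-bs d l2.length) :=
    Real.rpow_le_rpow_of_exponent_le ht1 (neg_le_neg (hlen l2 hl2))
  have h7 : t ^ (-(1 - θ)) * (δ0 * sigma f K d y) ≤ sigma f K d (f^[n] y) := by
    calc t ^ (-(1 - θ)) * (δ0 * sigma f K d y) ≤ t ^ (-bs d l2.length) * tau f d l2 y :=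
          mul_le_mul h6 h5 (mul_nonneg hδ0.le (by linarith)) (Real.rpow_nonneg ht0.le _)
      _ ≤ tau f d l2 (f^[n] y) := hscale
      _ ≤ sigma f K d (f^[n] y) := le_sigma h d hl2 _
  have h8 : Λ / 2 ≤ ‖deriv f^[n] y‖ := hlow y hyρ
  have hσ0 : 0 < sigma f K d y := by linarith
  unfold GG
  rw [le_div_iff₀ hσ0]
  calc δ0 / 2 * Λ * t ^ (-(1 - θ)) * sigma f K d y
      = t ^ (-(1 - θ)) * (δ0 * sigma f K d y) * (Λ / 2) := by ring
    _ ≤ sigma f K d (f^[n] y) * ‖deriv f^[n] y‖ :=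
        mul_le_mul h7 h8 (by positivity) (le_trans (mul_nonneg (Real.rpow_nonneg ht0.le _)
          (mul_nonneg hδ0.le hσ0.le)) h7)

end H74G
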