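import Pool.Agent.Lib.H74G.Defs
import Pool.Agent.Lib.H74G.C2
import Pool.Agent.Lib.H74G.C3

/-!
# Chunk C4 (M)
Compactness: every `a ∈ K` has `m0, r > 0` with `m0 ≤ GG 1 y` on `ball a r` (off `K`): `near_crit` if `deriv f a = 0`, `near_point` with `n = 1` otherwise (`f^[1] = f`). Cover `K` by finitely many balls of
half the radius (`IsCompact.elim_nhds_subcover`), take the minimum of the `m0` and of `1`, and `η` with: `infDist y K < η` implies `y` in one of the balls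
(`η` = minimum of the `r / 2`: a point `x ∈ K` with `dist y x < η` lies in a half ball).
-/

set_option autoImplicit false

open Set Filter Topology Metric

namespace H74G

open H74F

theorem h74fc4_loc {f : ℂ → ℂ} {K : Set ℂ} (h : Dc f K) {d : ℝ} (hd : DOK f K d) {a : ℂ} (ha : a ∈ K) :
    ∃ m0 : ℝ, 0 < m0 ∧ ∃ r : ℝ, 0 < r ∧ ∀ y, dist y a < r → y ∉ K → f y ∉ K → m0 ≤ GG f K d 1 y := by
  by_cases h0 : deriv f a = 0
  · obtain ⟨e, he, hce⟩ := hd.2 a ⟨ha, h0⟩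
    exact near_crit h hd.1 ⟨ha, h0⟩ he hce
  · obtain ⟨δ, θ, hδ, _, hn⟩ := near_point h hd.1 ha
    have h1 : 0 < ‖deriv f^[1] a‖ := by
      rw [Function.iterate_one]
      exact norm_pos_iff.2 h0
    obtain ⟨r, hr, hb⟩ := hn 1 h1
    refine ⟨_, ?_, r, hr, fun y hy hyK hfy => hb y hy hyK (by rwa [Function.iterate_one])⟩
    have h2 : (0 : ℝ) < max 1 (2 * ‖deriv f^[1] a‖) := lt_of_lt_of_le one_pos (le_max_left _ _)
    exact mul_pos (mul_pos hδ h1) (Real.rpow_pos_of_pos h2 _)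

theorem lower {f : ℂ → ℂ} {K : Set ℂ} (h : Dc f K) {d : ℝ} (hd : DOK f K d) :
    ∃ m0 : ℝ, 0 < m0 ∧ m0 ≤ 1 ∧ ∃ η : ℝ, 0 < η ∧
      ∀ y, infDist y K < η → y ∉ K → f y ∉ K → m0 ≤ GG f K d 1 y := by
  have key : ∃ m0 : ℝ, 0 < m0 ∧ m0 ≤ 1 ∧ ∃ η : ℝ, 0 < η ∧
      ∀ x ∈ K, ∀ y, dist y x < η → y ∉ K → f y ∉ K → m0 ≤ GG f K d 1 y := by
    refine h.cpt.induction_on (p := fun S => ∃ m0 : ℝ, 0 < m0 ∧ m0 ≤ 1 ∧ ∃ η : ℝ, 0 < η ∧
      ∀ x ∈ S, ∀ y, dist y x < η → y ∉ K → f y ∉ K → m0 ≤ GG f K d 1 y) ?_ ?_ ?_ ?_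
    · exact ⟨1, one_pos, le_rfl, 1, one_pos, fun x hx => absurd hx (Set.notMem_empty x)⟩
    · rintro s t hst ⟨m0, h1, h2, η, h3, h4⟩
      exact ⟨m0, h1, h2, η, h3, fun x hx => h4 x (hst hx)⟩
    · rintro s t ⟨m0, h1, h2, η, h3, h4⟩ ⟨m0', h1', h2', η', h3', h4'⟩
      refine ⟨min m0 m0', lt_min h1 h1', (min_le_left _ _).trans h2, min η η', lt_min h3 h3', ?_⟩
      intro x hx y hy hyK hfy
      rcases hx with hx | hx
      · exact (min_le_left _ _).trans (h4 x hx y (lt_of_lt_of_le hy (min_le_left _ _)) hyK hfy)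
      · exact (min_le_right _ _).trans (h4' x hx y (lt_of_lt_of_le hy (min_le_right _ _)) hyK hfy)
    · intro a ha
      obtain ⟨m0, h1, r, hr, h2⟩ := h74fc4_loc h hd ha
      refine ⟨ball a (r / 2), mem_nhdsWithin_of_mem_nhds (ball_mem_nhds a (by linarith)), min m0 1,
        lt_min h1 one_pos, min_le_right _ _, r / 2, by linarith, ?_⟩
      intro x hx y hy hyK hfy
      rw [mem_ball] at hx
      refine (min_le_left _ _).trans (h2 y ?_ hyK hfy)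
      calc dist y a ≤ dist y x + dist x a := dist_triangle _ _ _
        _ < r := by linarith
  obtain ⟨m0, h1, h2, η, h3, h4⟩ := key
  refine ⟨m0, h1, h2, η, h3, fun y hy hyK hfy => ?_⟩
  obtain ⟨x, hx, hyx⟩ := (infDist_lt_iff h.ne).1 hy
  exact h4 x hx y hyx hyK hfy

end H74G
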