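import Pool.Agent.Lib.H74F.Defs

/-!
# H74G: parabolic points (continuation of H74F, MP_5e504b_an). Definitions
-/

set_option autoImplicit false

open Set Filter Topology Metric

namespace H74G

open H74F

/-- The part of the hypotheses of `H74F.Dy` which is used for the metric. -/
structure Dc (f : ℂ → ℂ) (K : Set ℂ) : Prop where
  entire : Differentiable ℂ f
  cpt : IsCompact K
  maps : MapsTo f K K
  ne : K.Nonempty
  nc : ∃ z, deriv f z ≠ 0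
  hcrit : ∀ c ∈ crit f K, c ∉ PP f c

/-- `a` is a parabolic periodic point: `f^p a = a`, `(f^p)'(a) = 1` for some `p ≥ 1` (so the
multiplier of the cycle is a root of unity). -/
def Par (f : ℂ → ℂ) (a : ℂ) : Prop := ∃ p : ℕ, 1 ≤ p ∧ f^[p] a = a ∧ deriv f^[p] a = 1

/-- Some image of `x` is parabolic. -/
def PrePar (f : ℂ → ℂ) (x : ℂ) : Prop := ∃ i : ℕ, Par f (f^[i] x)

/-- The hypotheses: `K` is infinite, compact, the omega limit set of `z`, the orbit of `z` does not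
meet `K`, every recurrent point of `K` which is not parabolic has unbounded derivatives. -/
structure Dz (f : ℂ → ℂ) (K : Set ℂ) (z : ℂ) : Prop where
  entire : Differentiable ℂ f
  cpt : IsCompact K
  maps : MapsTo f K K
  inf : K.Infinite
  omega : K = {a | MapClusterPt a atTop (fun n : ℕ => f^[n] z)}
  off : ∀ n : ℕ, f^[n] z ∉ K
  near : ∀ ε : ℝ, 0 < ε → ∃ N : ℕ, ∀ n ≥ N, infDist (f^[n] z) K < ε
  hrec : ∀ a ∈ K, Rec f a → ¬ Par f a → ∀ C : ℝ, ∃ n : ℕ, C < ‖deriv f^[n] a‖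

/-- For the points of the orbit of `z` near `x` the derivative in the singular metric is at least
`M` after at most `N` steps. -/
def SG (f : ℂ → ℂ) (K : Set ℂ) (d : ℝ) (z : ℂ) (M : ℝ) (x : ℂ) : Prop :=
  ∃ N : ℕ, ∃ r : ℝ, 0 < r ∧ ∀ m : ℕ, dist (f^[m] z) x < r →
    ∃ n : ℕ, 1 ≤ n ∧ n ≤ N ∧ M ≤ GG f K d n (f^[m] z)

/-- The same with any `M` on a neighbourhood depending on `M`, and with `n` not bounded. -/
def LG (f : ℂ → ℂ) (K : Set ℂ) (d : ℝ) (z x : ℂ) : Prop :=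
  ∀ M : ℝ, ∃ r : ℝ, 0 < r ∧ ∀ m : ℕ, dist (f^[m] z) x < r → ∃ n : ℕ, 1 ≤ n ∧ M ≤ GG f K d n (f^[m] z)

/-- A punctured neighbourhood of `x` in `K` consists of points with `SG` (any `M`). -/
def QG (f : ℂ → ℂ) (K : Set ℂ) (d : ℝ) (z x : ℂ) : Prop :=
  ∀ M : ℝ, ∃ r : ℝ, 0 < r ∧ ∀ w ∈ K, w ≠ x → dist w x < r → SG f K d z M w

/-- The local expansion of `g` at a parabolic fixed point `a`, with `v = α (y - a)^q`. -/
def Exp (g : ℂ → ℂ) (a : ℂ) (q : ℕ) (α : ℂ) (C r : ℝ) : Prop :=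
  1 ≤ q ∧ α ≠ 0 ∧ 0 < C ∧ 0 < r ∧ r ≤ 1 ∧ ∀ y, dist y a < r →
    ‖g y - a - (y - a) * (1 + α * (y - a) ^ q)‖ ≤ C * ‖y - a‖ ^ (q + 2) ∧
    ‖deriv g y - (1 + (q + 1) * α * (y - a) ^ q)‖ ≤ C * ‖y - a‖ ^ (q + 1)

/-- `y` is in the repelling sector: `v = α (y - a)^q` satisfies `Re v > |v| / 2`. -/
def Sec (a : ℂ) (q : ℕ) (α : ℂ) (y : ℂ) : Prop :=
  ‖α * (y - a) ^ q‖ / 2 < (α * (y - a) ^ q).re

/-- One step in the repelling sector: `E` bounds the expansion near `y`, and the derivative is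
larger than `E ^ (1 - θ)`. -/
def Step (g : ℂ → ℂ) (a : ℂ) (q : ℕ) (α : ℂ) (θ ε c r : ℝ) : Prop :=
  0 < ε ∧ ε ≤ 1 ∧ 0 < c ∧ c ≤ 1 ∧ 0 < r ∧ r ≤ 1 ∧ ∀ y, y ≠ a → dist y a < r → Sec a q α y →
    ∃ E : ℝ, 1 ≤ E ∧ (1 + c * ‖α * (y - a) ^ q‖) * E ^ (1 - θ) ≤ ‖deriv g y‖ ∧
      (∀ y', dist y y' ≤ ε * dist y a → dist (g y) (g y') ≤ E * dist y y') ∧
      dist (g y) a ≤ E * dist y a ∧
      dist (g y) a ≤ (1 + 2 * ‖α * (y - a) ^ q‖) * dist y a ∧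
      (1 + ‖α * (y - a) ^ q‖ / 4) * dist y a ≤ dist (g y) a

/-- The weight with the distances replaced by a function `D`. -/
noncomputable def wt (d : ℝ) (D : ℂ → ℝ) : List ℂ → ℝ
  | [] => 1
  | c :: l => (D c) ^ (-bb d l.length) * wt d D l

end H74G
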