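import Pool.Agent.Lib.H74G.Defs
import Pool.Agent.Lib.H74F.B1

/-!
# Chunk P1 (S)
`Dz` gives `Dc`. `ne`: `K` is infinite. `nc`: otherwise `f` is constant `= b` (`is_const_of_deriv_eq_zero`), `f^[n] z = b` for `n ≥ 1`, so every cluster point of the orbit is `b` and `K ⊆ {b}` is finite. `hcrit`: if `c ∈ PP f c` then `c` is
recurrent (`rec_of_mem`, H74F.B1). `(f^[n])'(c) = 0` for `n ≥ 1` (`par_crit`: chain rule, `f^[m+1] = f^[m] ∘ f`, as in `not_mem_PP` in H74F/B1.lean). So `¬ Par f c` (`0 ≠ 1`) and `hrec` with `C = 1` gives `n` with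
`1 < ‖deriv f^[n] c‖`: impossible for `n = 0` (`deriv id = 1`) and for `n ≥ 1`.
-/

set_option autoImplicit false

open Set Filter Topology Metric

namespace H74G

open H74F

theorem par_crit {f : ℂ → ℂ} (hf : Differentiable ℂ f) {c : ℂ} (hc : deriv f c = 0) {n : ℕ} (hn : 1 ≤ n) :
    deriv f^[n] c = 0 := by
  rcases n with _ | m
  · omega
  · have h1 : f^[m + 1] = f^[m] ∘ f := Function.iterate_succ f m
    have h2 : DifferentiableAt ℂ f^[m] (f c) := (hf.iterate m) (f c)
    have h3 : deriv (f^[m] ∘ f) c = deriv f^[m] (f c) * deriv f c := deriv_comp c h2 (hf c)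
    rw [h1, h3, hc, mul_zero]

theorem core {f : ℂ → ℂ} {K : Set ℂ} {z : ℂ} (h : Dz f K z) : Dc f K := by
  refine ⟨h.entire, h.cpt, h.maps, h.inf.nonempty, ?_, ?_⟩
  · by_contra hno
    push Not at hno
    have hconst : ∀ x, f x = f z := fun x => is_const_of_deriv_eq_zero h.entire hno x z
    have hsub : K ⊆ {f z} := by
      intro a ha
      rw [h.omega] at ha
      have ha' : MapClusterPt a atTop (fun n : ℕ => f^[n] z) := ha
      rw [mapClusterPt_iff_frequently] at ha'
      rw [mem_singleton_iff]
      by_contra hne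
      have hopen : {f z}ᶜ ∈ 𝓝 a := isOpen_compl_singleton.mem_nhds (by simpa using hne)
      have hf := ha' _ hopen
      have hev : ∀ᶠ n : ℕ in atTop, ¬ (f^[n] z ∈ ({f z}ᶜ : Set ℂ)) := by
        filter_upwards [eventually_ge_atTop 1] with n hn
        rcases n with _ | m
        · omega
        · have : f^[m + 1] z = f z := by
            rw [Function.iterate_succ_apply']
            exact hconst _
          rw [this]
          simp
      exact (hf.and_eventually hev).exists.elim (fun n hn => hn.2 hn.1)
    exact h.inf ((finite_singleton _).subset hsub)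
  · intro c hc hmem
    have hrec := rec_of_mem hmem
    have hpar : ¬ Par f c := by
      rintro ⟨p, hp, -, h1⟩
      rw [par_crit h.entire hc.2 hp] at h1
      exact zero_ne_one h1
    obtain ⟨n, hn⟩ := h.hrec c hc.1 hrec hpar 1
    rcases n with _ | m
    · simp at hn
    · rw [par_crit h.entire hc.2 (Nat.succ_pos m), norm_zero] at hn
      linarith

end H74G
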