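import Pool.Agent.Lib.H74G.Defs

/-!
# Chunk P2 (M)
`omega_finite`: `y_k = (f^[p])^[k] y = f^[p * k] y → a`, so `f^[p * k + i] y → f^[i] a` for every `i < p` (continuity). Every `n` is `p * (n / p) + n % p`, so the set `S = {f^[i] a : i < p}` (finite) has the property: every neighbourhood
of `S` contains `f^[n] y` for all large `n`; a cluster point of the sequence therefore lies in `S` (`S` closed; a point `b ∉ S` has a closed ball around it with positive distance from `S`). `not_attracted`: otherwise the omega limit set of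
`f^[m] z`, which equals the omega limit set of `z` (`f^[n] (f^[m] z) = f^[n + m] z`, shift of the sequence), is finite, but it is the infinite set `K` (`h.omega`, `h.inf`). `iter_ne_id`: `f^[p] = id` gives
`(f^[p])^[k] z = z → z`, against `not_attracted` with `m = 0`.
-/

set_option autoImplicit false

open Set Filter Topology Metric

namespace H74G

open H74F

theorem omega_finite {f : ℂ → ℂ} (hf : Continuous f) {a y : ℂ} {p : ℕ} (hp : 1 ≤ p)
    (ht : Tendsto (fun k : ℕ => (f^[p])^[k] y) atTop (𝓝 a)) :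
    {b | MapClusterPt b atTop (fun n : ℕ => f^[n] y)}.Finite := by
  have hi : ∀ i : ℕ, Tendsto (fun k : ℕ => f^[p * k + i] y) atTop (𝓝 (f^[i] a)) := by
    intro i
    have h1 : Tendsto (fun k : ℕ => f^[i] ((f^[p])^[k] y)) atTop (𝓝 (f^[i] a)) :=
      ((hf.iterate i).tendsto a).comp ht
    refine h1.congr fun k => ?_
    rw [← Function.iterate_mul, ← Function.iterate_add_apply, Nat.add_comm]
  refine ((Set.finite_lt_nat p).image fun i => f^[i] a).subset ?_
  intro b hb
  by_contra hcon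
  have hne : ∀ i : ℕ, i < p → b ≠ f^[i] a := fun i hip h =>
    hcon ⟨i, hip, h.symm⟩
  have hsep : ∀ i : ℕ, ∃ U V : Set ℂ, (i < p → U ∈ 𝓝 b ∧ V ∈ 𝓝 (f^[i] a) ∧ Disjoint U V) := by
    intro i
    by_cases hip : i < p
    · obtain ⟨U, hU, V, hV, hUV⟩ := Filter.disjoint_iff.1 (disjoint_nhds_nhds.2 (hne i hip))
      exact ⟨U, V, fun _ => ⟨hU, hV, hUV⟩⟩
    · exact ⟨∅, ∅, fun h => absurd h hip⟩
  choose U V hUV using hsep
  have hs : (⋂ i ∈ Set.Iio p, U i) ∈ 𝓝 b :=
    (Filter.biInter_mem (Set.finite_Iio p)).2 fun i hip => (hUV i hip).1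
  have hk : ∀ᶠ k : ℕ in atTop, ∀ i ∈ Set.Iio p, f^[p * k + i] y ∈ V i :=
    (Filter.eventually_all_finite (Set.finite_Iio p)).2 fun i hip => hi i (hUV i hip).2.1
  obtain ⟨K, hK⟩ := eventually_atTop.1 hk
  have hfr := (mapClusterPt_iff_frequently.1 hb) _ hs
  apply hfr
  filter_upwards [eventually_ge_atTop (p * K)] with n hn hmem
  have hpos : 0 < p := hp
  have h1 : K ≤ n / p := (Nat.le_div_iff_mul_le hpos).2 (by rw [Nat.mul_comm]; exact hn)
  have h2 : n % p < p := Nat.mod_lt _ hpos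
  have h3 := hK (n / p) h1 (n % p) h2
  rw [Nat.div_add_mod] at h3
  have h4 : f^[n] y ∈ U (n % p) := Set.mem_iInter₂.1 hmem (n % p) h2
  exact Set.disjoint_left.1 (hUV _ h2).2.2 h4 h3

theorem not_attracted {f : ℂ → ℂ} {K : Set ℂ} {z : ℂ} (h : Dz f K z) {a : ℂ} {p : ℕ} (hp : 1 ≤ p) (m : ℕ) :
    ¬ Tendsto (fun k : ℕ => (f^[p])^[k] (f^[m] z)) atTop (𝓝 a) := by
  intro ht
  have hfin := omega_finite h.entire.continuous hp ht
  apply h.inf
  refine hfin.subset fun b hb => ?_
  rw [h.omega] at hb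
  have h1 : (fun n : ℕ => f^[n] (f^[m] z)) = (fun n : ℕ => f^[n] z) ∘ fun n => n + m := by
    funext n
    rw [Function.comp_apply, Function.iterate_add_apply]
  have h2 : ClusterPt b (map (fun n : ℕ => f^[n] z) atTop) := hb
  have h3 : ClusterPt b (map (fun n : ℕ => f^[n] (f^[m] z)) atTop) := by
    rw [h1, ← Filter.map_map, Filter.map_add_atTop_eq_nat]
    exact h2
  exact h3

theorem iter_ne_id {f : ℂ → ℂ} {K : Set ℂ} {z : ℂ} (h : Dz f K z) {p : ℕ} (hp : 1 ≤ p) : f^[p] ≠ id := by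
  intro he
  apply not_attracted h hp (a := z) 0
  rw [he]
  have h1 : (fun k : ℕ => (id : ℂ → ℂ)^[k] (f^[0] z)) = fun _ => z := by
    funext k
    rw [Function.iterate_id]
    rfl
  rw [h1]
  exact tendsto_const_nhds

end H74G
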