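import Pool.Agent.Lib.H74G.Defs

/-!
# Chunk P3 (M)
`k y = g y - y` is entire, not identically `0`, `k a = 0`, `deriv k a = 0`. By `AnalyticAt.exists_eventuallyEq_pow_smul_nonzero_iff` (not eventually `0` near `a`, else `g = id` by the identity theorem, see H74F/B6.lean `critEst` for the same
argument) `k y = (y - a)^n * u y` near `a`, `u` analytic, `u a ≠ 0`. `n ≥ 2` because `k a = 0` and `deriv k a = 0` (`n = 0`: `k a = u a ≠ 0`; `n = 1`: `deriv k a = u a ≠ 0`). `q = n - 1`, `α = u a`. Then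
`g y - a - (y - a) * (1 + α (y - a)^q) = (y - a)^(q+1) * (u y - u a)` and `‖u y - u a‖ ≤ C1 ‖y - a‖` near `a`. For the derivative: near `a`
`deriv g y = 1 + (q+1) (y - a)^q * u y + (y - a)^(q+1) * deriv u y`, so the difference is `(q+1) (y - a)^q (u y - u a) + (y - a)^(q+1) deriv u y`, and `‖deriv u y‖ ≤ C2` near `a`. `C = (q+1) C1 + C2 + 1`, `r ≤ 1` small.
-/

set_option autoImplicit false

open Set Filter Topology Metric

namespace H74G

open H74F

theorem exists_exp {g : ℂ → ℂ} (hg : Differentiable ℂ g) {a : ℂ} (ha : g a = a) (h1 : deriv g a = 1) (hne : g ≠ id) :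
    ∃ (q : ℕ) (α : ℂ) (C r : ℝ), Exp g a q α C r := by
  have hk : Differentiable ℂ (fun y => g y - y) := hg.sub differentiable_id
  have hkan : AnalyticAt ℂ (fun y => g y - y) a := hk.analyticAt a
  have hnz : ¬ ∀ᶠ z in 𝓝 a, g z - z = 0 := by
    intro h
    apply hne
    have hga : AnalyticOnNhd ℂ g univ := fun z _ => hg.analyticAt z
    have hia : AnalyticOnNhd ℂ (id : ℂ → ℂ) univ := fun z _ => analyticAt_id
    refine hga.eq_of_eventuallyEq hia (z₀ := a) ?_
    filter_upwards [h] with z hz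
    exact sub_eq_zero.1 hz
  obtain ⟨n, u, hu, hua, hev⟩ := hkan.exists_eventuallyEq_pow_smul_nonzero_iff.2 hnz
  simp only [smul_eq_mul] at hev
  have hdk : HasDerivAt (fun y => g y - y) 0 a := by
    have := (hg a).hasDerivAt.sub (hasDerivAt_id a)
    rw [h1, sub_self] at this
    exact this
  have hn0 : n ≠ 0 := by
    rintro rfl
    have := hev.self_of_nhds
    rw [ha] at this
    simp at this
    exact hua this.symm
  have hn1 : n ≠ 1 := by
    rintro rfl
    have hd : HasDerivAt (fun z => (z - a) ^ 1 * u z) (u a) a := by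
      have h2 := ((hasDerivAt_id a).sub_const a).mul hu.differentiableAt.hasDerivAt
      simp only [id, sub_self, zero_mul, one_mul, add_zero] at h2
      refine h2.congr_of_eventuallyEq ?_
      exact Filter.Eventually.of_forall (fun z => by simp)
    have h3 : HasDerivAt (fun y => g y - y) (u a) a := hd.congr_of_eventuallyEq hev
    exact hua (h3.unique hdk)
  obtain ⟨q, rfl⟩ : ∃ q, n = q + 1 := ⟨n - 1, by omega⟩
  have hq : 1 ≤ q := by omega
  obtain ⟨C1, hC1pos, hC1⟩ := (hu.differentiableAt.isBigO_sub).exists_pos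
  have hC1' := hC1.bound
  have hdu : ContinuousAt (deriv u) a := hu.deriv.continuousAt
  have hC2 : ∀ᶠ y in 𝓝 a, ‖deriv u y‖ < ‖deriv u a‖ + 1 :=
    hdu.norm.eventually_lt_const (by linarith)
  have hall : ∀ᶠ y in 𝓝 a, (∀ᶠ z in 𝓝 y, g z - z = (z - a) ^ (q + 1) * u z) ∧
      DifferentiableAt ℂ u y ∧ ‖u y - u a‖ ≤ C1 * ‖y - a‖ ∧ ‖deriv u y‖ < ‖deriv u a‖ + 1 := by
    filter_upwards [eventually_eventually_nhds.2 hev, hu.eventually_analyticAt, hC1', hC2] with y h1 h2 h3 h4
    exact ⟨h1, h2.differentiableAt, h3, h4⟩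
  obtain ⟨r0, hr0, hball⟩ := Metric.eventually_nhds_iff.1 hall
  refine ⟨q, u a, (q + 1) * C1 + (‖deriv u a‖ + 1), min r0 1, hq, hua, by positivity,
    lt_min hr0 one_pos, min_le_right _ _, fun y hy => ?_⟩
  obtain ⟨hev1, hd, hy1, hy2⟩ := hball (lt_of_lt_of_le hy (min_le_left _ _))
  have hgy : g y = y + (y - a) ^ (q + 1) * u y := by
    have := hev1.self_of_nhds
    rw [← this]; ring
  have hdg : deriv g y = 1 + ((q + 1) * (y - a) ^ q * u y + (y - a) ^ (q + 1) * deriv u y) := by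
    have e1 : HasDerivAt (fun z => (z - a) ^ (q + 1) * u z)
        ((q + 1) * (y - a) ^ q * u y + (y - a) ^ (q + 1) * deriv u y) y := by
      have h2 := ((((hasDerivAt_id y).sub_const a).pow (q + 1))).mul hd.hasDerivAt
      simp only [id, Nat.add_sub_cancel, mul_one, Nat.cast_add, Nat.cast_one] at h2
      exact h2
    have e2 : HasDerivAt g (1 + ((q + 1) * (y - a) ^ q * u y + (y - a) ^ (q + 1) * deriv u y)) y := by
      have h3 := (hasDerivAt_id y).add e1
      refine h3.congr_of_eventuallyEq ?_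
      filter_upwards [hev1] with z hz
      simp only [id, Pi.add_apply]
      rw [← hz]; ring
    exact e2.deriv
  have hnn : 0 ≤ ‖y - a‖ := norm_nonneg _
  constructor
  · have e : g y - a - (y - a) * (1 + u a * (y - a) ^ q) = (y - a) ^ (q + 1) * (u y - u a) := by
      rw [hgy]; ring
    rw [e, norm_mul, norm_pow]
    calc ‖y - a‖ ^ (q + 1) * ‖u y - u a‖ ≤ ‖y - a‖ ^ (q + 1) * (C1 * ‖y - a‖) := by gcongr
      _ = C1 * ‖y - a‖ ^ (q + 2) := by ring
      _ ≤ ((q + 1) * C1 + (‖deriv u a‖ + 1)) * ‖y - a‖ ^ (q + 2) := by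
          gcongr
          have : (0 : ℝ) ≤ q * C1 := by positivity
          have h5 := norm_nonneg (deriv u a)
          linarith
  · have e : deriv g y - (1 + (q + 1) * u a * (y - a) ^ q) =
        (q + 1) * (y - a) ^ q * (u y - u a) + (y - a) ^ (q + 1) * deriv u y := by
      rw [hdg]; ring
    rw [e]
    have hq1 : ‖((q : ℂ) + 1)‖ = (q : ℝ) + 1 := by
      have : ((q : ℂ) + 1) = ((q + 1 : ℕ) : ℂ) := by push_cast; ring
      rw [this, Complex.norm_natCast]; push_cast; ring
    calc ‖(q + 1) * (y - a) ^ q * (u y - u a) + (y - a) ^ (q + 1) * deriv u y‖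
        ≤ ((q : ℝ) + 1) * ‖y - a‖ ^ q * ‖u y - u a‖ + ‖y - a‖ ^ (q + 1) * ‖deriv u y‖ := by
          refine (norm_add_le _ _).trans (le_of_eq ?_)
          rw [norm_mul, norm_mul, norm_mul, norm_pow, norm_pow, hq1]
      _ ≤ ((q : ℝ) + 1) * ‖y - a‖ ^ q * (C1 * ‖y - a‖) + ‖y - a‖ ^ (q + 1) * (‖deriv u a‖ + 1) := by
          gcongr
      _ = ((q + 1) * C1 + (‖deriv u a‖ + 1)) * ‖y - a‖ ^ (q + 1) := by ring

end H74G
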