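import Pool.Agent.Lib.H74G.Defs

/-!
# Chunk P4a (M)
The coordinate `w = -1 / (q α (y - a)^q)` changes by almost `1`. With `u = y - a`, `g y - a = u * μ`, `μ = 1 + α u^q + R`, `‖R‖ ≤ C ‖u‖^(q+1)`, `μ → 1` as `y → a`, so `g y ≠ a` and
`cw (g y) - cw y - 1 = -(μ^(-q) - 1) / (q α u^q) - 1`. It tends to `0` as `y → a`, `y ≠ a`: `(μ^(-q) - 1) / (μ - 1) → -q` (the derivative of `x ↦ x^(-q)` at `1`; `μ ≠ 1` near `a` because `‖α u^q‖ > ‖R‖`) and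
`(μ - 1) / (α u^q) = 1 + R / (α u^q) → 1` (`‖R / (α u^q)‖ ≤ C ‖u‖ / ‖α‖`). Alternatively estimate directly: `‖μ^q - 1 - q α u^q‖ ≤ C' ‖u‖^(q+1)` and
`cw (g y) - cw y = (μ^q - 1) / (q α u^q μ^q)`.
-/

set_option autoImplicit false

open Set Filter Topology Metric

namespace H74G

open H74F

/-- The coordinate at the parabolic point. -/
noncomputable def cw (a : ℂ) (q : ℕ) (α y : ℂ) : ℂ := -1 / (q * α * (y - a) ^ q)

private theorem p4a_cont (q : ℕ) (hq : 1 ≤ q) :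
    ∃ δ : ℝ, 0 < δ ∧ δ ≤ 1 / 2 ∧ ∀ μ : ℂ, ‖μ - 1‖ < δ →
      ‖(∑ i ∈ Finset.range q, μ ^ i) / (q * μ ^ q) - 1‖ < 1 / 30 := by
  have hq0 : (q : ℂ) ≠ 0 := by exact_mod_cast (by omega : q ≠ 0)
  have hc : ContinuousAt (fun μ : ℂ => (∑ i ∈ Finset.range q, μ ^ i) / (q * μ ^ q)) 1 := by
    apply ContinuousAt.div
    · fun_prop
    · fun_prop
    · simp [hq0]
  have hv : (∑ i ∈ Finset.range q, (1 : ℂ) ^ i) / (q * 1 ^ q) = 1 := by
    simp [hq0]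
  obtain ⟨δ, hδ, h⟩ := Metric.continuousAt_iff.1 hc (1 / 30) (by norm_num)
  refine ⟨min δ (1 / 2), lt_min hδ (by norm_num), min_le_right _ _, fun μ hμ => ?_⟩
  have := h (x := μ) (by rw [dist_eq_norm]; exact lt_of_lt_of_le hμ (min_le_left _ _))
  simp only [hv] at this
  rwa [dist_eq_norm] at this

theorem coord_step {g : ℂ → ℂ} {a : ℂ} {q : ℕ} {α : ℂ} {C r : ℝ} (h : Exp g a q α C r) :
    ∃ r1 : ℝ, 0 < r1 ∧ r1 ≤ r ∧ ∀ y, y ≠ a → dist y a < r1 →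
      g y ≠ a ∧ ‖cw a q α (g y) - cw a q α y - 1‖ ≤ 1 / 10 := by
  obtain ⟨hq, hα, hC, hr, hr1, hE⟩ := h
  obtain ⟨δ, hδ, hδ2, hδ3⟩ := p4a_cont q hq
  have hαn : 0 < ‖α‖ := norm_pos_iff.2 hα
  have hq0 : (q : ℂ) ≠ 0 := by exact_mod_cast (by omega : q ≠ 0)
  set r1 : ℝ := min r (min (δ / (2 * (‖α‖ + C))) (‖α‖ / (30 * C))) with hr1def
  have hr1pos : 0 < r1 := by
    rw [hr1def]
    refine lt_min hr (lt_min (by positivity) (by positivity))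
  refine ⟨r1, hr1pos, min_le_left _ _, fun y hy hya => ?_⟩
  have hu : y - a ≠ 0 := sub_ne_zero.2 hy
  have hun : 0 < ‖y - a‖ := norm_pos_iff.2 hu
  have hya' : ‖y - a‖ < r1 := by rwa [dist_eq_norm] at hya
  have hu1 : ‖y - a‖ < 1 := lt_of_lt_of_le (lt_of_lt_of_le hya' (min_le_left _ _)) hr1
  have hE1 := (hE y (lt_of_lt_of_le hya (min_le_left _ _))).1
  set u : ℂ := y - a with hudef
  set μ : ℂ := (g y - a) / u with hμ
  have hgy : g y - a = u * μ := by rw [hμ]; field_simp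
  set R : ℂ := μ - 1 - α * u ^ q with hR
  have hRn : ‖R‖ ≤ C * ‖u‖ ^ (q + 1) := by
    have e1 : g y - a - u * (1 + α * u ^ q) = u * R := by rw [hgy, hR]; ring
    rw [e1, norm_mul] at hE1
    have e2 : C * ‖u‖ ^ (q + 2) = ‖u‖ * (C * ‖u‖ ^ (q + 1)) := by ring
    rw [e2] at hE1
    exact le_of_mul_le_mul_left hE1 hun
  have hpow1 : ‖u‖ ^ q ≤ ‖u‖ := by
    calc ‖u‖ ^ q ≤ ‖u‖ ^ 1 := pow_le_pow_of_le_one hun.le hu1.le hq
      _ = ‖u‖ := pow_one _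
  have hpow2 : ‖u‖ ^ (q + 1) ≤ ‖u‖ := by
    calc ‖u‖ ^ (q + 1) ≤ ‖u‖ ^ 1 := pow_le_pow_of_le_one hun.le hu1.le (by omega)
      _ = ‖u‖ := pow_one _
  have hμ1 : ‖μ - 1‖ < δ := by
    have e : μ - 1 = α * u ^ q + R := by rw [hR]; ring
    have h1 : ‖u‖ < δ / (2 * (‖α‖ + C)) :=
      lt_of_lt_of_le hya' ((min_le_right _ _).trans (min_le_left _ _))
    rw [lt_div_iff₀ (by positivity)] at h1
    calc ‖μ - 1‖ = ‖α * u ^ q + R‖ := by rw [e]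
      _ ≤ ‖α‖ * ‖u‖ ^ q + C * ‖u‖ ^ (q + 1) := by
          refine (norm_add_le _ _).trans (add_le_add ?_ hRn)
          rw [norm_mul, norm_pow]
      _ ≤ ‖α‖ * ‖u‖ + C * ‖u‖ := by gcongr
      _ < δ := by nlinarith
  have hμ0 : μ ≠ 0 := by
    intro h0
    rw [h0] at hμ1
    norm_num at hμ1
    linarith
  have huq : u ^ q ≠ 0 := pow_ne_zero _ hu
  have hμq : μ ^ q ≠ 0 := pow_ne_zero _ hμ0
  refine ⟨?_, ?_⟩
  · intro h0
    rw [h0, sub_self] at hgy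
    exact (mul_ne_zero hu hμ0) hgy.symm
  set X : ℂ := R / (α * u ^ q) with hX
  set Z : ℂ := (∑ i ∈ Finset.range q, μ ^ i) / (q * μ ^ q) - 1 with hZ
  have hZn : ‖Z‖ < 1 / 30 := hδ3 μ hμ1
  have hXn : ‖X‖ ≤ 1 / 30 := by
    rw [hX, norm_div, norm_mul, norm_pow, div_le_iff₀ (by positivity)]
    have h1 : ‖u‖ < ‖α‖ / (30 * C) :=
      lt_of_lt_of_le hya' ((min_le_right _ _).trans (min_le_right _ _))
    rw [lt_div_iff₀ (by positivity)] at h1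
    calc ‖R‖ ≤ C * ‖u‖ ^ (q + 1) := hRn
      _ = (‖u‖ * (30 * C)) * (1 / 30 * ‖u‖ ^ q) := by ring
      _ ≤ ‖α‖ * (1 / 30 * ‖u‖ ^ q) := by gcongr
      _ = 1 / 30 * (‖α‖ * ‖u‖ ^ q) := by ring
  have hkey : cw a q α (g y) - cw a q α y = (1 + X) * (1 + Z) := by
    have hgs : (∑ i ∈ Finset.range q, μ ^ i) * (μ - 1) = μ ^ q - 1 := geom_sum_mul μ q
    have e1 : μ - 1 = α * u ^ q * (1 + X) := by
      rw [hX]; field_simp; rw [hR]; ring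
    have e2 : 1 + Z = (∑ i ∈ Finset.range q, μ ^ i) / (q * μ ^ q) := by rw [hZ]; ring
    have e3 : cw a q α (g y) - cw a q α y = (μ ^ q - 1) / (q * (α * u ^ q) * μ ^ q) := by
      unfold cw
      rw [hgy, ← hudef, mul_pow]
      field_simp
      ring
    rw [e3, e2, ← hgs, e1]
    field_simp
  rw [hkey]
  have e4 : (1 + X) * (1 + Z) - 1 = X + Z + X * Z := by ring
  rw [e4]
  calc ‖X + Z + X * Z‖ ≤ ‖X‖ + ‖Z‖ + ‖X‖ * ‖Z‖ := by
        refine (norm_add_le _ _).trans (add_le_add (norm_add_le _ _) ?_)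
        rw [norm_mul]
    _ ≤ 1 / 30 + 1 / 30 + 1 / 30 * (1 / 30) := by
        have := hZn.le
        gcongr
    _ ≤ 1 / 10 := by norm_num

end H74G
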