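import Pool.Agent.Lib.H74G.Defs

/-!
# Chunk P4b (S)
By strong induction on `k`: `R ≤ ‖w j‖` for `j < k` gives `‖w k - (w 0 + k)‖ ≤ k / 10`. `‖w 0 + k‖² = ‖w 0‖² + 2 k Re (w 0) + k² ≥ ‖w 0‖² - k ‖w 0‖ + k² ≥ (3/4) max(‖w 0‖, k)²`, so `‖w 0 + k‖ ≥ (4/5) max(‖w 0‖, k)` and
`‖w k‖ ≥ (4/5) max(‖w 0‖, k) - k/10 ≥ (7/10) max(‖w 0‖, k) ≥ R`. The same bound `‖w k‖ ≥ (7/10) k` gives the limit.
-/

set_option autoImplicit false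

open Set Filter Topology Metric

namespace H74G

open H74F

theorem p4b_norm {z : ℂ} {k : ℝ} (hk : 0 ≤ k) (h0 : -(‖z‖ / 2) ≤ z.re) :
    4 / 5 * ‖z‖ ≤ ‖z + (k : ℂ)‖ ∧ 4 / 5 * k ≤ ‖z + (k : ℂ)‖ := by
  have hz : 0 ≤ ‖z‖ := norm_nonneg z
  have hs : 0 ≤ ‖z + (k : ℂ)‖ := norm_nonneg _
  have e1 : ‖z‖ ^ 2 = z.re ^ 2 + z.im ^ 2 := by
    rw [← Complex.normSq_eq_norm_sq, Complex.normSq_apply]; ring
  have e2 : ‖z + (k : ℂ)‖ ^ 2 = (z.re + k) ^ 2 + z.im ^ 2 := by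
    rw [← Complex.normSq_eq_norm_sq, Complex.normSq_apply]
    simp only [Complex.add_re, Complex.add_im, Complex.ofReal_re, Complex.ofReal_im]
    ring
  have e3 : ‖z‖ ^ 2 - k * ‖z‖ + k ^ 2 ≤ ‖z + (k : ℂ)‖ ^ 2 := by
    rw [e2, e1]
    nlinarith [mul_le_mul_of_nonneg_left h0 hk]
  constructor
  · apply le_of_sq_le_sq _ hs
    nlinarith [sq_nonneg (k - ‖z‖ / 2), sq_nonneg ‖z‖]
  · apply le_of_sq_le_sq _ hs
    nlinarith [sq_nonneg (‖z‖ - k / 2), sq_nonneg k]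

theorem seq_far {w : ℕ → ℂ} {R : ℝ} (hR : 0 < R) (h0 : -(‖w 0‖ / 2) ≤ (w 0).re) (h1 : 2 * R ≤ ‖w 0‖)
    (hs : ∀ k, R ≤ ‖w k‖ → ‖w (k + 1) - w k - 1‖ ≤ 1 / 10) :
    (∀ k, R ≤ ‖w k‖) ∧ Tendsto (fun k => ‖w k‖) atTop atTop := by
  have low : ∀ k : ℕ, ‖w k - (w 0 + (k : ℂ))‖ ≤ (k : ℝ) / 10 →
      7 / 10 * ‖w 0‖ ≤ ‖w k‖ ∧ 7 / 10 * (k : ℝ) ≤ ‖w k‖ := by
    intro k hk
    obtain ⟨a1, a2⟩ := p4b_norm (z := w 0) (k := (k : ℝ)) (Nat.cast_nonneg k) h0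
    have a3 : ‖w 0 + ((k : ℝ) : ℂ)‖ ≤ ‖w k‖ + (k : ℝ) / 10 := by
      have e : w 0 + ((k : ℝ) : ℂ) = w k - (w k - (w 0 + (k : ℂ))) := by push_cast; ring
      rw [e]
      exact (norm_sub_le _ _).trans (by linarith)
    constructor <;> linarith
  have key : ∀ k : ℕ, ‖w k - (w 0 + (k : ℂ))‖ ≤ (k : ℝ) / 10 := by
    intro k
    induction k with
    | zero => simp
    | succ k ih =>
      have b1 := hs k (by linarith [(low k ih).1])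
      have e : w (k + 1) - (w 0 + ((k + 1 : ℕ) : ℂ)) =
          (w (k + 1) - w k - 1) + (w k - (w 0 + (k : ℂ))) := by push_cast; ring
      rw [e]
      refine (norm_add_le _ _).trans ?_
      push_cast
      linarith
  refine ⟨fun k => by linarith [(low k (key k)).1], ?_⟩
  refine tendsto_atTop_mono (fun k => (low k (key k)).2) ?_
  exact Tendsto.const_mul_atTop (by norm_num) tendsto_natCast_atTop_atTop

end H74G
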