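import Pool.Agent.Lib.H74G.Defs
import Pool.Agent.Lib.H74G.P4a
import Pool.Agent.Lib.H74G.P4b

/-!
# Chunk P4c (M)
Points outside the repelling sector are attracted. `r1` from `coord_step`. `‖cw a q α y‖ = 1 / (q ‖α‖ ‖y - a‖^q)`. Put `R = 2 / (q ‖α‖ r1^q)` (so `y ≠ a` and `R ≤ ‖cw y‖` imply `‖y - a‖^q ≤ r1^q / 2`, `dist y a < r1`) and take `r2 ≤ r1` with
`2 R ≤ 1 / (q ‖α‖ r2^q)`. Let `dist y a < r2`, not in the sector. `y = a`: the sequence is constant (`g a = a`). `y ≠ a`: `w k = cw a q α (g^[k] y)`; by induction `g^[k] y ≠ a` (while the points stay in the `r1`-ball; to use `seq_far`, whose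
hypothesis `hs` is needed for all `k`, prove first by induction on `k` the statement `R ≤ ‖w j‖ ∧ g^[j] y ≠ a` for `j ≤ k` - or apply `seq_far` to the sequence `w' k` = `w k` as long as all earlier points are good and `w' (k+1) = w' k + 1` otherwise;
simplest: note that `R ≤ ‖cw a q α x‖` with `R > 0` forces `x ≠ a` (because `cw a q α a = -1 / 0 = 0` for `q ≥ 1`), so `hs` holds for every `k`: `R ≤ ‖w k‖` gives `g^[k] y ≠ a` and `dist (g^[k] y) a < r1`, then `coord_step`).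
`h0`: with `v = α (y - a)^q` we have `w 0 = -1 / (q v) = -conj v / (q ‖v‖²)`, so `Re (w 0) = -Re v / (q ‖v‖²) ≥ -(‖v‖/2) / (q ‖v‖²) = -‖w 0‖ / 2`. Finally `‖w k‖ → ∞` gives `‖g^[k] y - a‖^q → 0`, so `g^[k] y → a`.
-/

set_option autoImplicit false

open Set Filter Topology Metric

namespace H74G

open H74F

private theorem p4c_norm (a : ℂ) (q : ℕ) (α y : ℂ) :
    ‖cw a q α y‖ = 1 / (q * ‖α‖ * ‖y - a‖ ^ q) := by
  unfold cw
  rw [norm_div, norm_neg, norm_one, norm_mul, norm_mul, norm_pow, Complex.norm_natCast]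

private theorem p4c_re (z : ℂ) (hz : z ≠ 0) (h : z.re ≤ ‖z‖ / 2) :
    -(‖-1 / z‖ / 2) ≤ (-1 / z).re := by
  have h1 : 0 < ‖z‖ := norm_pos_iff.mpr hz
  have h2 : (-1 / z).re = -(z.re / ‖z‖ ^ 2) := by
    rw [neg_div, one_div, Complex.neg_re, Complex.inv_re, Complex.normSq_eq_norm_sq]
  rw [h2, norm_div, norm_neg, norm_one]
  have h3 : z.re / ‖z‖ ^ 2 ≤ 1 / ‖z‖ / 2 := by
    rw [div_le_iff₀ (by positivity)]
    have h4 : 1 / ‖z‖ / 2 * ‖z‖ ^ 2 = ‖z‖ / 2 := by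
      field_simp
    rw [h4]
    exact h
  linarith

theorem par_attract {g : ℂ → ℂ} {a : ℂ} {q : ℕ} {α : ℂ} {C r : ℝ} (h : Exp g a q α C r) (hga : g a = a) :
    ∃ r1 : ℝ, 0 < r1 ∧ r1 ≤ r ∧ ∀ y, dist y a < r1 → ¬ Sec a q α y →
      Tendsto (fun k : ℕ => g^[k] y) atTop (𝓝 a) := by
  obtain ⟨hq, hα, hC, hr, hr1, hexp⟩ := id h
  obtain ⟨r1, h1, h1r, hstep⟩ := coord_step h
  have hq0 : (0 : ℝ) < q := by exact_mod_cast hq
  have hqc : (q : ℂ) ≠ 0 := by
    have : q ≠ 0 := by omega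
    exact_mod_cast this
  have hα0 : 0 < ‖α‖ := norm_pos_iff.mpr hα
  have hq1 : q ≠ 0 := by omega
  set R : ℝ := 2 / (q * ‖α‖ * r1 ^ q) with hR
  have hR0 : 0 < R := by positivity
  have key : ∀ x, R ≤ ‖cw a q α x‖ → x ≠ a ∧ dist x a < r1 := by
    intro x hx
    have hxa : x ≠ a := by
      intro hxa
      rw [hxa, p4c_norm, sub_self, norm_zero, zero_pow hq1, mul_zero, div_zero] at hx
      linarith
    refine ⟨hxa, ?_⟩
    have hx0 : 0 < ‖x - a‖ := norm_pos_iff.mpr (sub_ne_zero.mpr hxa)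
    rw [p4c_norm, hR, div_le_div_iff₀ (by positivity) (by positivity)] at hx
    have h2 : (q * ‖α‖) * (2 * ‖x - a‖ ^ q) ≤ (q * ‖α‖) * r1 ^ q := by linarith
    have h3 : 2 * ‖x - a‖ ^ q ≤ r1 ^ q := le_of_mul_le_mul_left h2 (by positivity)
    have h4 : 0 < ‖x - a‖ ^ q := by positivity
    have h5 : ‖x - a‖ ^ q < r1 ^ q := by linarith
    rw [dist_eq_norm]
    exact lt_of_pow_lt_pow_left₀ q h1.le h5
  refine ⟨r1 / 4, by positivity, by linarith, ?_⟩
  intro y hy hsec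
  by_cases hya : y = a
  · have hconst : ∀ k : ℕ, g^[k] y = a := by
      intro k
      rw [hya]
      exact Function.iterate_fixed hga k
    simp only [hconst]
    exact tendsto_const_nhds
  have hy0 : 0 < ‖y - a‖ := norm_pos_iff.mpr (sub_ne_zero.mpr hya)
  have hv : α * (y - a) ^ q ≠ 0 := mul_ne_zero hα (pow_ne_zero q (sub_ne_zero.mpr hya))
  have hs : ∀ k, R ≤ ‖cw a q α (g^[k] y)‖ →
      ‖cw a q α (g^[k + 1] y) - cw a q α (g^[k] y) - 1‖ ≤ 1 / 10 := by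
    intro k hk
    obtain ⟨h2, h3⟩ := key _ hk
    rw [Function.iterate_succ_apply']
    exact (hstep _ h2 h3).2
  have hw1 : 2 * R ≤ ‖cw a q α (g^[0] y)‖ := by
    rw [Function.iterate_zero_apply, p4c_norm, hR]
    rw [dist_eq_norm] at hy
    have h2 : ‖y - a‖ ^ q ≤ (r1 / 4) ^ q := pow_le_pow_left₀ hy0.le hy.le q
    have h3 : (r1 / 4) ^ q = r1 ^ q * (1 / 4) ^ q := by
      rw [← mul_pow]
      congr 1
      ring
    have h4 : ((1 : ℝ) / 4) ^ q ≤ 1 / 4 := by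
      have := pow_le_pow_of_le_one (by norm_num : (0 : ℝ) ≤ 1 / 4) (by norm_num) hq
      simpa using this
    have h5 : 4 * ‖y - a‖ ^ q ≤ r1 ^ q := by
      have h6 : 0 < r1 ^ q := by positivity
      nlinarith
    rw [← mul_div_assoc, div_le_div_iff₀ (by positivity) (by positivity)]
    have h6 : (q * ‖α‖) * (4 * ‖y - a‖ ^ q) ≤ (q * ‖α‖) * r1 ^ q :=
      mul_le_mul_of_nonneg_left h5 (by positivity)
    linarith
  have hw0 : -(‖cw a q α (g^[0] y)‖ / 2) ≤ (cw a q α (g^[0] y)).re := by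
    rw [Function.iterate_zero_apply]
    unfold cw
    rw [mul_assoc]
    refine p4c_re _ (mul_ne_zero hqc hv) ?_
    unfold Sec at hsec
    push Not at hsec
    have h2 : ((q : ℂ) * (α * (y - a) ^ q)).re = q * (α * (y - a) ^ q).re := by
      simp
    rw [h2, norm_mul, Complex.norm_natCast]
    have := mul_le_mul_of_nonneg_left hsec hq0.le
    linarith
  obtain ⟨hall, hlim⟩ := seq_far (w := fun k => cw a q α (g^[k] y)) hR0 hw0 hw1 hs
  rw [Metric.tendsto_atTop]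
  intro ε hε
  have hev : ∀ᶠ k in atTop, 1 / (q * ‖α‖ * ε ^ q) < ‖cw a q α (g^[k] y)‖ :=
    hlim.eventually_gt_atTop _
  obtain ⟨N, hN⟩ := eventually_atTop.mp hev
  refine ⟨N, fun k hk => ?_⟩
  have h2 := hN k hk
  obtain ⟨h3, _⟩ := key _ (hall k)
  have h4 : 0 < ‖g^[k] y - a‖ := norm_pos_iff.mpr (sub_ne_zero.mpr h3)
  rw [p4c_norm, div_lt_div_iff₀ (by positivity) (by positivity)] at h2
  have h5 : (q * ‖α‖) * ‖g^[k] y - a‖ ^ q < (q * ‖α‖) * ε ^ q := by linarith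
  have h6 : ‖g^[k] y - a‖ ^ q < ε ^ q := lt_of_mul_lt_mul_left h5 (by positivity)
  rw [dist_eq_norm]
  exact lt_of_pow_lt_pow_left₀ q hε.le h6

end H74G
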