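import Pool.Agent.Lib.H74G.Defs

/-!
# Chunk P5a (S)
Elementary inequalities. `norm_one_add_le`: `‖1 + x‖² = 1 + 2 Re x + ‖x‖² ≤ (1 + Re x + ‖x‖²/2)²` and `0 ≤ 1 + Re x + ‖x‖²/2` (since `Re x ≥ -‖x‖` and `1 - t + t²/2 > 0`). `pow_ratio`: `‖(u' / u)^q - 1‖ ≤ 2^q ε` when `‖u' - u‖ ≤ ε ‖u‖`, `0 ≤ ε ≤ 1`: put
`x = u'/u - 1`, `‖x‖ ≤ ε`; induction on `q`: `‖(1+x)^(q+1) - 1‖ ≤ ‖(1+x)^q - 1‖ ‖1+x‖ + ‖x‖ ≤ (2^q - 1) ε * 2 + ε` (prove the bound `(2^q - 1) ε`). `bern_mul`: `E = 1 + x`, `x ≥ 0`, `E^(1-θ) ≤ 1 + (1-θ) x` (`Real.rpow_one_add_le_one_add_mul_self` for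
exponents in `[0,1]`).
-/

set_option autoImplicit false

open Set Filter Topology Metric

namespace H74G

open H74F

theorem norm_one_add_le (x : ℂ) : ‖1 + x‖ ≤ 1 + x.re + ‖x‖ ^ 2 / 2 := by
  have h1 : ‖1 + x‖ ^ 2 = (1 + x.re) ^ 2 + x.im ^ 2 := by
    rw [Complex.sq_norm, Complex.normSq_apply]
    simp only [Complex.add_re, Complex.one_re, Complex.add_im, Complex.one_im, zero_add]
    ring
  have h2 : ‖x‖ ^ 2 = x.re ^ 2 + x.im ^ 2 := by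
    rw [Complex.sq_norm, Complex.normSq_apply]
    ring
  have h3 : -‖x‖ ≤ x.re := (abs_le.1 (Complex.abs_re_le_norm x)).1
  have h4 : 0 ≤ 1 + x.re + ‖x‖ ^ 2 / 2 := by nlinarith [sq_nonneg (‖x‖ - 1)]
  refine (pow_le_pow_iff_left₀ (norm_nonneg _) h4 two_ne_zero).1 ?_
  rw [h1]
  have h5 : (1 + x.re + ‖x‖ ^ 2 / 2) ^ 2 = 1 + 2 * x.re + ‖x‖ ^ 2 + (x.re + ‖x‖ ^ 2 / 2) ^ 2 := by ring
  rw [h5]
  nlinarith [sq_nonneg (x.re + ‖x‖ ^ 2 / 2)]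

theorem pow_ratio {u u' : ℂ} {ε : ℝ} (hu : u ≠ 0) (hε0 : 0 ≤ ε) (hε : ε ≤ 1) (h : ‖u' - u‖ ≤ ε * ‖u‖) (q : ℕ) :
    ‖u' ^ q - u ^ q‖ ≤ 2 ^ q * ε * ‖u‖ ^ q := by
  have hu' : ‖u'‖ ≤ 2 * ‖u‖ := by
    have h1 : ‖u'‖ ≤ ‖u' - u‖ + ‖u‖ := by
      have := norm_add_le (u' - u) u
      rwa [sub_add_cancel] at this
    nlinarith [norm_nonneg u]
  have key : ‖u' ^ q - u ^ q‖ ≤ (2 ^ q - 1) * ε * ‖u‖ ^ q := by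
    induction q with
    | zero => simp
    | succ q ih =>
      have h1 : u' ^ (q + 1) - u ^ (q + 1) = (u' ^ q - u ^ q) * u' + u ^ q * (u' - u) := by ring
      have h2 : ‖u' ^ (q + 1) - u ^ (q + 1)‖ ≤ ‖u' ^ q - u ^ q‖ * ‖u'‖ + ‖u‖ ^ q * ‖u' - u‖ := by
        rw [h1]
        refine (norm_add_le _ _).trans ?_
        rw [norm_mul, norm_mul, norm_pow]
      have h3 : ‖u' ^ q - u ^ q‖ * ‖u'‖ ≤ ((2 ^ q - 1) * ε * ‖u‖ ^ q) * (2 * ‖u‖) :=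
        mul_le_mul ih hu' (norm_nonneg _) ((norm_nonneg _).trans ih)
      have h4 : ‖u‖ ^ q * ‖u' - u‖ ≤ ‖u‖ ^ q * (ε * ‖u‖) :=
        mul_le_mul_of_nonneg_left h (pow_nonneg (norm_nonneg _) _)
      calc ‖u' ^ (q + 1) - u ^ (q + 1)‖ ≤ ‖u' ^ q - u ^ q‖ * ‖u'‖ + ‖u‖ ^ q * ‖u' - u‖ := h2
        _ ≤ ((2 ^ q - 1) * ε * ‖u‖ ^ q) * (2 * ‖u‖) + ‖u‖ ^ q * (ε * ‖u‖) := add_le_add h3 h4
        _ = (2 ^ (q + 1) - 1) * ε * ‖u‖ ^ (q + 1) := by ring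
  refine key.trans ?_
  have h5 : 0 ≤ ε * ‖u‖ ^ q := mul_nonneg hε0 (pow_nonneg (norm_nonneg _) _)
  nlinarith

theorem bern_mul {x θ : ℝ} (hx : 0 ≤ x) (hθ : 0 < θ) (hθ1 : θ ≤ 1) : (1 + x) ^ (1 - θ) ≤ 1 + (1 - θ) * x := by
  exact rpow_one_add_le_one_add_mul_self (by linarith) (by linarith) (by linarith)

end H74G
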