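import Pool.Agent.Lib.H74G.Defs
import Pool.Agent.Lib.H74G.P5a

/-!
# Chunk P5b (M)
The derivative near a point of the sector. Let `u = y - a`, `v = α u^q`, `0 < ‖u‖ < r/2`, `ε ≤ 1`. (1) For `dist y y'' ≤ ε ‖u‖` we have `‖u''‖ ≤ 2 ‖u‖ < r` and `‖deriv g y''‖ ≤ ‖1 + (q+1) v‖ + (q+1) ‖α‖ ‖u''^q - u^q‖ + C ‖u''‖^(q+1)
≤ 1 + (q+1) Re v + (q+1)² ‖v‖²/2 + (q+1) 2^q ε ‖v‖ + C 2^(q+1) ‖u‖^(q+1)` (`norm_one_add_le`, `pow_ratio`), and `‖v‖² = ‖α‖² ‖u‖^(2q) ≤ ‖α‖² ‖u‖^(q+1)` (`‖u‖ ≤ 1`, `q ≥ 1`). So with `E = 1 + (q+1) Re v + C2 ε ‖v‖ + C3 ‖u‖^(q+1)` the mean value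
inequality on the (convex) closed ball of radius `ε ‖u‖` around `y` (`Convex.norm_image_sub_le_of_norm_deriv_le`) gives the Lipschitz bound. (2) `dist (g y) a ≤ ‖u‖ ‖1 + v‖ + C ‖u‖^(q+2) ≤ E ‖u‖` (enlarge `C3`; `Re v ≥ 0`). (3) is the reverse triangle inequality and `‖1 + x‖ ≥ 1 + Re x`.
-/

set_option autoImplicit false

open Set Filter Topology Metric

namespace H74G

open H74F

theorem local_lip {g : ℂ → ℂ} (hg : Differentiable ℂ g) {a : ℂ} {q : ℕ} {α : ℂ} {C r : ℝ} (h : Exp g a q α C r) :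
    ∃ C2 C3 : ℝ, 0 < C2 ∧ 0 < C3 ∧ ∀ ε : ℝ, 0 < ε → ε ≤ 1 → ∀ y, y ≠ a → dist y a < r / 2 →
      0 ≤ (α * (y - a) ^ q).re →
      (∀ y', dist y y' ≤ ε * dist y a → dist (g y) (g y') ≤
        (1 + (q + 1) * (α * (y - a) ^ q).re + C2 * ε * ‖α * (y - a) ^ q‖ + C3 * dist y a ^ (q + 1)) * dist y y') ∧
      dist (g y) a ≤
        (1 + (q + 1) * (α * (y - a) ^ q).re + C2 * ε * ‖α * (y - a) ^ q‖ + C3 * dist y a ^ (q + 1)) * dist y a ∧
      1 + (q + 1) * (α * (y - a) ^ q).re - C * dist y a ^ (q + 1) ≤ ‖deriv g y‖ := by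
  obtain ⟨hq, hα, hC, hr, hr1, hex⟩ := h
  have hApos : 0 < ‖α‖ := norm_pos_iff.2 hα
  have hq0 : (0 : ℝ) ≤ (q : ℝ) := Nat.cast_nonneg q
  have hcast : ((q : ℂ) + 1) = (((q : ℝ) + 1 : ℝ) : ℂ) := by push_cast; ring
  refine ⟨((q : ℝ) + 1) * 2 ^ q, ((q : ℝ) + 1) ^ 2 * ‖α‖ ^ 2 / 2 + C * 2 ^ (q + 1), by positivity,
    by positivity, ?_⟩
  intro ε hε hε1 y hya hyr hre
  have ht0 : 0 < dist y a := dist_pos.2 hya
  have htn : ‖y - a‖ = dist y a := (dist_eq_norm _ _).symm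
  obtain ⟨t, ht⟩ : ∃ t, t = dist y a := ⟨_, rfl⟩
  obtain ⟨v, hv⟩ : ∃ v, v = α * (y - a) ^ q := ⟨_, rfl⟩
  rw [← ht] at ht0 htn hyr
  rw [← hv] at hre
  simp only [← hv, ← ht]
  have hvn : ‖v‖ = ‖α‖ * t ^ q := by rw [hv, norm_mul, norm_pow, htn]
  have ht1 : t ≤ 1 := by linarith
  have hv2 : ‖v‖ ^ 2 ≤ ‖α‖ ^ 2 * t ^ (q + 1) := by
    rw [hvn, mul_pow, ← pow_mul]
    refine mul_le_mul_of_nonneg_left ?_ (sq_nonneg _)
    exact pow_le_pow_of_le_one ht0.le ht1 (by omega)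
  have hvnn := norm_nonneg v
  have htq : 0 ≤ t ^ (q + 1) := by positivity
  have hQv : ‖1 + ((q : ℂ) + 1) * v‖ ≤ 1 + ((q : ℝ) + 1) * v.re + ((q : ℝ) + 1) ^ 2 * ‖v‖ ^ 2 / 2 := by
    have h1 := norm_one_add_le (((q : ℂ) + 1) * v)
    have h2 : (((q : ℂ) + 1) * v).re = ((q : ℝ) + 1) * v.re := by
      rw [hcast, Complex.re_ofReal_mul]
    have h3 : ‖((q : ℂ) + 1) * v‖ = ((q : ℝ) + 1) * ‖v‖ := by
      rw [hcast, norm_mul, Complex.norm_real, Real.norm_of_nonneg (by linarith)]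
    rw [h2, h3] at h1
    refine h1.trans (le_of_eq ?_)
    ring
  have hsq : ((q : ℝ) + 1) ^ 2 * ‖v‖ ^ 2 / 2 ≤ ((q : ℝ) + 1) ^ 2 * ‖α‖ ^ 2 / 2 * t ^ (q + 1) := by
    have h1 := mul_le_mul_of_nonneg_left hv2 (by positivity : (0 : ℝ) ≤ ((q : ℝ) + 1) ^ 2 / 2)
    calc ((q : ℝ) + 1) ^ 2 * ‖v‖ ^ 2 / 2 = ((q : ℝ) + 1) ^ 2 / 2 * ‖v‖ ^ 2 := by ring
      _ ≤ ((q : ℝ) + 1) ^ 2 / 2 * (‖α‖ ^ 2 * t ^ (q + 1)) := h1
      _ = _ := by ring
  refine ⟨?_, ?_, ?_⟩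
  · intro y' hy'
    have hder : ∀ x ∈ closedBall y (ε * t), ‖deriv g x‖ ≤
        1 + ((q : ℝ) + 1) * v.re + ((q : ℝ) + 1) * 2 ^ q * ε * ‖v‖ +
          (((q : ℝ) + 1) ^ 2 * ‖α‖ ^ 2 / 2 + C * 2 ^ (q + 1)) * t ^ (q + 1) := by
      intro x hx
      rw [mem_closedBall, dist_eq_norm] at hx
      have hu : ‖(x - a) - (y - a)‖ ≤ ε * ‖y - a‖ := by
        rw [htn, sub_sub_sub_cancel_right]
        exact hx
      have hpr := pow_ratio (sub_ne_zero.2 hya) hε.le hε1 hu q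
      rw [htn] at hpr
      have hxn : ‖x - a‖ ≤ 2 * t := by
        have h1 := norm_add_le ((x - a) - (y - a)) (y - a)
        rw [sub_add_cancel, htn] at h1
        rw [htn] at hu
        have h2 : ε * t ≤ t := by nlinarith
        linarith
      have hxr : dist x a < r := by
        rw [dist_eq_norm]
        linarith
      obtain ⟨-, h2⟩ := hex x hxr
      have h3 : ‖deriv g x‖ ≤ ‖1 + ((q : ℂ) + 1) * α * (x - a) ^ q‖ + C * ‖x - a‖ ^ (q + 1) := by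
        have h4 := norm_add_le (deriv g x - (1 + ((q : ℂ) + 1) * α * (x - a) ^ q))
          (1 + ((q : ℂ) + 1) * α * (x - a) ^ q)
        rw [sub_add_cancel] at h4
        linarith
      have h4 : ‖1 + ((q : ℂ) + 1) * α * (x - a) ^ q‖ ≤
          ‖1 + ((q : ℂ) + 1) * v‖ + ((q : ℝ) + 1) * ‖α‖ * (2 ^ q * ε * t ^ q) := by
        have e : 1 + ((q : ℂ) + 1) * α * (x - a) ^ q =
            (1 + ((q : ℂ) + 1) * v) + ((q : ℂ) + 1) * α * ((x - a) ^ q - (y - a) ^ q) := by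
          rw [hv]
          ring
        rw [e]
        refine (norm_add_le _ _).trans ?_
        have h5 : ‖((q : ℂ) + 1) * α * ((x - a) ^ q - (y - a) ^ q)‖ ≤
            ((q : ℝ) + 1) * ‖α‖ * (2 ^ q * ε * t ^ q) := by
          rw [norm_mul, norm_mul, hcast, Complex.norm_real, Real.norm_of_nonneg (by linarith)]
          exact mul_le_mul_of_nonneg_left hpr (by positivity)
        linarith
      have h5 : C * ‖x - a‖ ^ (q + 1) ≤ C * (2 * t) ^ (q + 1) :=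
        mul_le_mul_of_nonneg_left (pow_le_pow_left₀ (norm_nonneg _) hxn _) hC.le
      have h6 : ((q : ℝ) + 1) * ‖α‖ * (2 ^ q * ε * t ^ q) = ((q : ℝ) + 1) * 2 ^ q * ε * ‖v‖ := by
        rw [hvn]
        ring
      have h7 : C * (2 * t) ^ (q + 1) = C * 2 ^ (q + 1) * t ^ (q + 1) := by
        rw [mul_pow]
        ring
      rw [h6] at h4
      rw [h7] at h5
      calc ‖deriv g x‖ ≤ _ := h3
        _ ≤ (1 + ((q : ℝ) + 1) * v.re + ((q : ℝ) + 1) ^ 2 * ‖α‖ ^ 2 / 2 * t ^ (q + 1)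
            + ((q : ℝ) + 1) * 2 ^ q * ε * ‖v‖) + C * 2 ^ (q + 1) * t ^ (q + 1) := by linarith
        _ = _ := by ring
    have hmem : y' ∈ closedBall y (ε * t) := by
      rw [mem_closedBall, dist_comm]
      exact hy'
    have hself : y ∈ closedBall y (ε * t) := mem_closedBall_self (mul_pos hε ht0).le
    have h1 := (convex_closedBall y (ε * t)).norm_image_sub_le_of_norm_deriv_le (f := g)
      (fun x _ => hg x) hder hmem hself
    rw [dist_eq_norm, dist_eq_norm]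
    exact h1
  · obtain ⟨h1, -⟩ := hex y (by rw [← ht]; linarith)
    rw [← hv, htn] at h1
    have h2 : dist (g y) a ≤ ‖(y - a) * (1 + v)‖ + C * t ^ (q + 2) := by
      rw [dist_eq_norm]
      have h3 := norm_add_le (g y - a - (y - a) * (1 + v)) ((y - a) * (1 + v))
      rw [sub_add_cancel] at h3
      linarith
    rw [norm_mul, htn] at h2
    have h3 := norm_one_add_le v
    have h4 : ‖v‖ ^ 2 / 2 ≤ ((q : ℝ) + 1) ^ 2 * ‖v‖ ^ 2 / 2 := by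
      have : (1 : ℝ) ≤ ((q : ℝ) + 1) ^ 2 := by nlinarith
      nlinarith [sq_nonneg ‖v‖]
    have h5 : v.re ≤ ((q : ℝ) + 1) * v.re := by nlinarith
    have h6 : 0 ≤ ((q : ℝ) + 1) * 2 ^ q * ε * ‖v‖ := by positivity
    have h7 : C ≤ C * 2 ^ (q + 1) := by
      have : (1 : ℝ) ≤ 2 ^ (q + 1) := one_le_pow₀ (by norm_num)
      nlinarith
    have h8 : C * t ^ (q + 1) ≤ C * 2 ^ (q + 1) * t ^ (q + 1) := mul_le_mul_of_nonneg_right h7 htq
    have h9 : 1 + v.re + ‖v‖ ^ 2 / 2 + C * t ^ (q + 1) ≤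
        1 + ((q : ℝ) + 1) * v.re + ((q : ℝ) + 1) * 2 ^ q * ε * ‖v‖ +
          (((q : ℝ) + 1) ^ 2 * ‖α‖ ^ 2 / 2 + C * 2 ^ (q + 1)) * t ^ (q + 1) := by
      rw [add_mul]
      linarith
    calc dist (g y) a ≤ t * ‖1 + v‖ + C * t ^ (q + 2) := h2
      _ ≤ t * (1 + v.re + ‖v‖ ^ 2 / 2) + C * t ^ (q + 2) := by
        have := mul_le_mul_of_nonneg_left h3 ht0.le
        linarith
      _ = (1 + v.re + ‖v‖ ^ 2 / 2 + C * t ^ (q + 1)) * t := by ring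
      _ ≤ _ := mul_le_mul_of_nonneg_right h9 ht0.le
  · obtain ⟨-, h1⟩ := hex y (by rw [← ht]; linarith)
    have e : 1 + ((q : ℂ) + 1) * α * (y - a) ^ q = 1 + ((q : ℂ) + 1) * v := by
      rw [hv]
      ring
    rw [e, htn] at h1
    have h2 : ‖1 + ((q : ℂ) + 1) * v‖ ≤ ‖deriv g y‖ + C * t ^ (q + 1) := by
      have h3 := norm_sub_norm_le (1 + ((q : ℂ) + 1) * v) (deriv g y)
      rw [norm_sub_rev] at h3
      linarith
    have h3 : 1 + ((q : ℝ) + 1) * v.re ≤ ‖1 + ((q : ℂ) + 1) * v‖ := by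
      have h4 := (abs_le.1 (Complex.abs_re_le_norm (1 + ((q : ℂ) + 1) * v))).2
      have h5 : (1 + ((q : ℂ) + 1) * v).re = 1 + ((q : ℝ) + 1) * v.re := by
        rw [hcast, Complex.add_re, Complex.one_re, Complex.re_ofReal_mul]
      rw [h5] at h4
      exact h4
    linarith

end H74G
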