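import Pool.Agent.Lib.H74G.Defs
import Pool.Agent.Lib.H74G.P5b

/-!
# Chunk P5c (M)
One step in the sector. `C2, C3` from `local_lip`. Let `t = ‖v‖`, `v = α (y - a)^q`, `Re v > t / 2`, and note `dist y a ^ (q+1) = dist y a * t / ‖α‖`. Put `E = 1 + x`, `x = (q+1) Re v + C2 ε t + C3 dist y a ^ (q+1) ≥ 0`. `bern_mul`: `E^(1-θ) ≤ 1 + (1-θ) x`, so
`(1 + c t) E^(1-θ) ≤ 1 + (1-θ) x + c t (1 + x)`. With `x ≤ 1` (`r1` small, `t` small) it is enough that
`(1-θ)(C2 ε t + C3 dist y a ^ (q+1)) + 2 c t + C dist y a ^ (q+1) ≤ θ (q+1) Re v`, and the right side is `≥ θ t` (`q + 1 ≥ 2`, `Re v ≥ t/2`). Choose `ε = min 1 (θ / (4 C2))`, `c = θ / 8` (`≤ 1`) and `r1` so small that `(C3 + C) r1 / ‖α‖ ≤ θ / 4`, `r1 ≤ r/2`, `r1 ≤ 1`,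
`(q+1) ‖α‖ r1^q + C2 ‖α‖ r1^q + C3 r1 ≤ 1`. The fourth item of `Step`: `dist (g y) a ≤ dist y a (1 + t) + C dist y a^(q+2) ≤ (1 + 2 t) dist y a` if `C r1 ≤ ‖α‖`; the fifth: `dist (g y) a ≥ dist y a (1 + Re v) - C dist y a^(q+2) ≥ dist y a (1 + t/2 - t/4)` if `C r1 ≤ ‖α‖ / 4`.
-/

set_option autoImplicit false

open Set Filter Topology Metric

namespace H74G

open H74F

theorem par_step {g : ℂ → ℂ} (hg : Differentiable ℂ g) {a : ℂ} {q : ℕ} {α : ℂ} {C r : ℝ} (h : Exp g a q α C r)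
    {θ : ℝ} (hθ : 0 < θ) (hθ1 : θ ≤ 1) : ∃ ε c r1 : ℝ, Step g a q α θ ε c r1 := by
  obtain ⟨C2, C3, hC2, hC3, hloc⟩ := local_lip hg h
  obtain ⟨hq, hα, hC, hr, hr1, hexp⟩ := h
  have hA : 0 < ‖α‖ := norm_pos_iff.mpr hα
  set A : ℝ := ‖α‖ with hAdef
  have hq1 : (1 : ℝ) ≤ (q : ℝ) := by exact_mod_cast hq
  have hM : 0 < ((q : ℝ) + 1) * A + C2 * A + C3 := by positivity
  refine ⟨min 1 (θ / (4 * C2)), θ / 8, min (r / 2) (min 1 (min (θ * A / (4 * (C3 + C)))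
    (min (1 / (((q : ℝ) + 1) * A + C2 * A + C3)) (A / (4 * C))))), ?_, min_le_left _ _, by positivity,
    by linarith, ?_, (min_le_right _ _).trans (min_le_left _ _), ?_⟩
  · exact lt_min one_pos (by positivity)
  · refine lt_min (by positivity) (lt_min one_pos (lt_min (by positivity) (lt_min (by positivity) (by positivity))))
  intro y hya hyr hsec
  have hε0 : 0 < min 1 (θ / (4 * C2)) := lt_min one_pos (by positivity)
  have hε1 : min 1 (θ / (4 * C2)) ≤ 1 := min_le_left _ _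
  have hε2 : C2 * min 1 (θ / (4 * C2)) ≤ θ / 4 := by
    have h1 : C2 * min 1 (θ / (4 * C2)) ≤ C2 * (θ / (4 * C2)) :=
      mul_le_mul_of_nonneg_left (min_le_right _ _) hC2.le
    have h2 : C2 * (θ / (4 * C2)) = θ / 4 := by field_simp
    linarith
  set ε : ℝ := min 1 (θ / (4 * C2)) with hεdef
  have hs0 : 0 < dist y a := dist_pos.mpr hya
  have hsa : dist y a < r / 2 := hyr.trans_le (min_le_left _ _)
  have hs1 : dist y a < 1 := hyr.trans_le ((min_le_right _ _).trans (min_le_left _ _))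
  have hs2 : dist y a < θ * A / (4 * (C3 + C)) :=
    hyr.trans_le ((min_le_right _ _).trans ((min_le_right _ _).trans (min_le_left _ _)))
  have hs3 : dist y a < 1 / (((q : ℝ) + 1) * A + C2 * A + C3) :=
    hyr.trans_le ((min_le_right _ _).trans ((min_le_right _ _).trans ((min_le_right _ _).trans (min_le_left _ _))))
  have hs4 : dist y a < A / (4 * C) :=
    hyr.trans_le ((min_le_right _ _).trans ((min_le_right _ _).trans ((min_le_right _ _).trans (min_le_right _ _))))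
  have hsr : dist y a < r := by linarith
  have hR0 : 0 ≤ (α * (y - a) ^ q).re := by
    have h1 : ‖α * (y - a) ^ q‖ / 2 < (α * (y - a) ^ q).re := hsec
    have h2 : 0 ≤ ‖α * (y - a) ^ q‖ := norm_nonneg _
    linarith
  have hRt : ‖α * (y - a) ^ q‖ / 2 < (α * (y - a) ^ q).re := hsec
  have hRle : (α * (y - a) ^ q).re ≤ ‖α * (y - a) ^ q‖ := Complex.re_le_norm _
  obtain ⟨hL1, hL2, hL3⟩ := hloc ε hε0 hε1 y hya hsa hR0
  obtain ⟨he1, -⟩ := hexp y hsr
  have htA : ‖α * (y - a) ^ q‖ = A * dist y a ^ q := by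
    rw [norm_mul, norm_pow, dist_eq_norm]
  have hnya : ‖y - a‖ = dist y a := (dist_eq_norm y a).symm
  have hga : ‖g y - a‖ = dist (g y) a := (dist_eq_norm (g y) a).symm
  have ht0 : 0 ≤ ‖α * (y - a) ^ q‖ := norm_nonneg _
  -- the lower bound for `‖1 + v‖`
  have h1v : 1 + (α * (y - a) ^ q).re ≤ ‖1 + α * (y - a) ^ q‖ := by
    have h1 := Complex.re_le_norm (1 + α * (y - a) ^ q)
    simpa using h1
  have h1v' : ‖1 + α * (y - a) ^ q‖ ≤ 1 + ‖α * (y - a) ^ q‖ := by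
    have h1 := norm_add_le (1 : ℂ) (α * (y - a) ^ q)
    simpa using h1
  rw [hnya] at he1
  have hup : dist (g y) a ≤ dist y a * ‖1 + α * (y - a) ^ q‖ + C * dist y a ^ (q + 2) := by
    have h1 : ‖g y - a‖ ≤ ‖g y - a - (y - a) * (1 + α * (y - a) ^ q)‖ + ‖(y - a) * (1 + α * (y - a) ^ q)‖ := by
      have h2 := norm_add_le (g y - a - (y - a) * (1 + α * (y - a) ^ q)) ((y - a) * (1 + α * (y - a) ^ q))
      rwa [sub_add_cancel] at h2
    rw [norm_mul, hnya, hga] at h1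
    linarith
  have hlow : dist y a * ‖1 + α * (y - a) ^ q‖ - C * dist y a ^ (q + 2) ≤ dist (g y) a := by
    have h1 : ‖(y - a) * (1 + α * (y - a) ^ q)‖ ≤ ‖g y - a‖ + ‖g y - a - (y - a) * (1 + α * (y - a) ^ q)‖ := by
      have h2 := norm_sub_le (g y - a) (g y - a - (y - a) * (1 + α * (y - a) ^ q))
      rwa [sub_sub_cancel] at h2
    rw [norm_mul, hnya, hga] at h1
    linarith
  set R : ℝ := (α * (y - a) ^ q).re with hRdef
  set t : ℝ := ‖α * (y - a) ^ q‖ with htdef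
  set s : ℝ := dist y a with hsdef
  have hP : s ^ (q + 1) = s ^ q * s := pow_succ s q
  have hP2 : s ^ (q + 2) = s ^ (q + 1) * s := pow_succ s (q + 1)
  have hsq : s ^ q ≤ s := by
    calc s ^ q ≤ s ^ 1 := pow_le_pow_of_le_one hs0.le hs1.le hq
      _ = s := pow_one s
  have hsq1 : s ^ (q + 1) ≤ s := by
    calc s ^ (q + 1) ≤ s ^ 1 := pow_le_pow_of_le_one hs0.le hs1.le (by omega)
      _ = s := pow_one s
  have hPpos : 0 < s ^ (q + 1) := pow_pos hs0 _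
  have hAP : A * s ^ (q + 1) = s * t := by rw [hP, htA]; ring
  have hk2 : (C3 + C) * s ≤ θ * A / 4 := by
    have h1 := (lt_div_iff₀ (by positivity : (0 : ℝ) < 4 * (C3 + C))).mp hs2
    nlinarith
  have hk3 : (((q : ℝ) + 1) * A + C2 * A + C3) * s ≤ 1 := by
    have h1 := (lt_div_iff₀ hM).mp hs3
    linarith
  have hk4 : C * s ≤ A / 4 := by
    have h1 := (lt_div_iff₀ (by positivity : (0 : ℝ) < 4 * C)).mp hs4
    linarith
  have hCP : (C3 + C) * s ^ (q + 1) ≤ θ * t / 4 := by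
    have h1 : A * ((C3 + C) * s ^ (q + 1)) ≤ A * (θ * t / 4) := by
      calc A * ((C3 + C) * s ^ (q + 1)) = ((C3 + C) * s) * t := by
            rw [show A * ((C3 + C) * s ^ (q + 1)) = (C3 + C) * (A * s ^ (q + 1)) by ring, hAP]; ring
        _ ≤ (θ * A / 4) * t := mul_le_mul_of_nonneg_right hk2 ht0
        _ = A * (θ * t / 4) := by ring
    exact le_of_mul_le_mul_left h1 hA
  have hCP4 : C * s ^ (q + 1) ≤ t / 4 := by
    have h1 : A * (C * s ^ (q + 1)) ≤ A * (t / 4) := by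
      calc A * (C * s ^ (q + 1)) = (C * s) * t := by
            rw [show A * (C * s ^ (q + 1)) = C * (A * s ^ (q + 1)) by ring, hAP]; ring
        _ ≤ (A / 4) * t := mul_le_mul_of_nonneg_right hk4 ht0
        _ = A * (t / 4) := by ring
    exact le_of_mul_le_mul_left h1 hA
  have htle : t ≤ A * s := by rw [htA]; exact mul_le_mul_of_nonneg_left hsq hA.le
  have hq0 : (0 : ℝ) ≤ (q : ℝ) := by linarith
  have hx0 : 0 ≤ ((q : ℝ) + 1) * R + C2 * ε * t + C3 * s ^ (q + 1) := by positivity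
  have hx1 : ((q : ℝ) + 1) * R + C2 * ε * t + C3 * s ^ (q + 1) ≤ 1 := by
    have h1 : ((q : ℝ) + 1) * R ≤ ((q : ℝ) + 1) * (A * s) :=
      mul_le_mul_of_nonneg_left (hRle.trans htle) (by linarith)
    have h2 : C2 * ε * t ≤ C2 * 1 * (A * s) :=
      mul_le_mul (mul_le_mul_of_nonneg_left hε1 hC2.le) htle ht0 (by linarith)
    have h3 : C3 * s ^ (q + 1) ≤ C3 * s := mul_le_mul_of_nonneg_left hsq1 hC3.le
    have h4 : ((q : ℝ) + 1) * (A * s) + C2 * 1 * (A * s) + C3 * s = (((q : ℝ) + 1) * A + C2 * A + C3) * s := by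
      ring
    linarith
  have hEeq : 1 + ((q : ℝ) + 1) * R + C2 * ε * t + C3 * s ^ (q + 1) =
      1 + (((q : ℝ) + 1) * R + C2 * ε * t + C3 * s ^ (q + 1)) := by ring
  refine ⟨1 + ((q : ℝ) + 1) * R + C2 * ε * t + C3 * s ^ (q + 1), by linarith, ?_, hL1, hL2, ?_, ?_⟩
  · refine le_trans ?_ hL3
    rw [hEeq]
    have hb := bern_mul hx0 hθ hθ1
    set x : ℝ := ((q : ℝ) + 1) * R + C2 * ε * t + C3 * s ^ (q + 1) with hxdef
    have hc0 : 0 ≤ 1 + θ / 8 * t := by positivity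
    have h1 : (1 + θ / 8 * t) * (1 + x) ^ (1 - θ) ≤ (1 + θ / 8 * t) * (1 + (1 - θ) * x) :=
      mul_le_mul_of_nonneg_left hb hc0
    have hθx : (1 - θ) * x ≤ 1 := by
      have h2 : (1 - θ) * x ≤ 1 * 1 := mul_le_mul (by linarith) hx1 hx0 zero_le_one
      linarith
    have h3 : θ / 8 * t * ((1 - θ) * x) ≤ θ / 8 * t * 1 := mul_le_mul_of_nonneg_left hθx (by positivity)
    have h4 : C2 * ε * t ≤ θ / 4 * t := mul_le_mul_of_nonneg_right hε2 ht0
    have h5 : (1 - θ) * (C2 * ε * t + C3 * s ^ (q + 1)) ≤ 1 * (C2 * ε * t + C3 * s ^ (q + 1)) :=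
      mul_le_mul_of_nonneg_right (by linarith) (by positivity)
    have h6 : t ≤ ((q : ℝ) + 1) * R := by
      have h7 : 2 * R ≤ ((q : ℝ) + 1) * R := mul_le_mul_of_nonneg_right (by linarith) hR0
      linarith
    have h8 : θ * t ≤ θ * (((q : ℝ) + 1) * R) := mul_le_mul_of_nonneg_left h6 hθ.le
    have h9 : (1 - θ) * x = (1 - θ) * (((q : ℝ) + 1) * R) + (1 - θ) * (C2 * ε * t + C3 * s ^ (q + 1)) := by
      rw [hxdef]; ring
    have h10 : (1 + θ / 8 * t) * (1 + (1 - θ) * x) = 1 + (1 - θ) * x + θ / 8 * t + θ / 8 * t * ((1 - θ) * x) := by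
      ring
    have h11 : 0 ≤ θ * t := by positivity
    nlinarith
  · rw [hP2] at hup
    have h1 : s * ‖1 + α * (y - a) ^ q‖ ≤ s * (1 + t) := mul_le_mul_of_nonneg_left h1v' hs0.le
    have h2 : C * s ^ (q + 1) * s ≤ t / 4 * s := mul_le_mul_of_nonneg_right hCP4 hs0.le
    have h3 : 0 ≤ t * s := by positivity
    nlinarith
  · rw [hP2] at hlow
    have h1 : s * (1 + R) ≤ s * ‖1 + α * (y - a) ^ q‖ := mul_le_mul_of_nonneg_left h1v hs0.le
    have h2 : C * s ^ (q + 1) * s ≤ t / 4 * s := mul_le_mul_of_nonneg_right hCP4 hs0.le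
    have h3 : t / 2 * s ≤ R * s := mul_le_mul_of_nonneg_right hRt.le hs0.le
    nlinarith

end H74G
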