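import Pool.Agent.Lib.H74G.Defs
import Pool.Agent.Lib.H74F.B4

/-!
# Chunk P6 (M)
Inequalities for `wt` (induction on the list, as in H74F/B4.lean where the same is done for `tau`; `bb_nonneg`, `bs_succ`, `Real.rpow_le_rpow_of_nonpos`, `Real.mul_rpow`).
-/

set_option autoImplicit false

open Set Filter Topology Metric

namespace H74G

open H74F

theorem tau_eq_wt (f : ℂ → ℂ) (d : ℝ) (l : List ℂ) (x : ℂ) : tau f d l x = wt d (fun c => infDist x (PP f c)) l := by
  induction l with
  | nil => simp [tau, wt]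
  | cons c l ih => rw [tau, wt, ih]

theorem wt_pos {d : ℝ} {D : ℂ → ℝ} {l : List ℂ} (h : ∀ c ∈ l, 0 < D c) : 0 < wt d D l := by
  induction l with
  | nil => simp [wt]
  | cons c l ih =>
    have h1 : 0 < D c := h c (by simp)
    have h2 := ih (fun c' hc' => h c' (by simp [hc']))
    rw [wt]
    exact mul_pos (Real.rpow_pos_of_pos h1 _) h2

theorem wt_scale {d : ℝ} (hd : 1 < d) {D D' : ℂ → ℝ} {l : List ℂ} {t : ℝ} (ht : 0 < t)
    (h : ∀ c ∈ l, 0 < D' c ∧ D' c ≤ t * D c) : t ^ (-bs d l.length) * wt d D l ≤ wt d D' l := by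
  induction l with
  | nil => simp [wt, bs]
  | cons c l ih =>
    obtain ⟨h1, h2⟩ := h c (by simp)
    have ih' := ih (fun c' hc' => h c' (by simp [hc']))
    have hx : 0 < D c := by
      have h3 : 0 < t * D c := lt_of_lt_of_le h1 h2
      exact (pos_iff_pos_of_mul_pos h3).mp ht
    have hxl : 0 < wt d D l := by
      refine wt_pos (fun c' hc' => ?_)
      obtain ⟨h3, h4⟩ := h c' (by simp [hc'])
      have h5 : 0 < t * D c' := lt_of_lt_of_le h3 h4
      exact (pos_iff_pos_of_mul_pos h5).mp ht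
    have hb := bb_nonneg hd l.length
    have h6 : (t * D c) ^ (-bb d l.length) ≤ (D' c) ^ (-bb d l.length) :=
      Real.rpow_le_rpow_of_nonpos h1 h2 (by linarith)
    rw [Real.mul_rpow ht.le hx.le] at h6
    have h7 : t ^ (-bs d (l.length + 1)) = t ^ (-bb d l.length) * t ^ (-bs d l.length) := by
      rw [← Real.rpow_add ht, bs_succ]
      congr 1
      ring
    rw [List.length_cons, h7, wt, wt]
    calc t ^ (-bb d l.length) * t ^ (-bs d l.length) * (D c ^ (-bb d l.length) * wt d D l)
        = (t ^ (-bb d l.length) * D c ^ (-bb d l.length)) *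
            (t ^ (-bs d l.length) * wt d D l) := by ring
      _ ≤ (D' c) ^ (-bb d l.length) * wt d D' l := by
          refine mul_le_mul h6 ih' ?_ ?_
          · exact mul_nonneg (Real.rpow_nonneg ht.le _) hxl.le
          · exact Real.rpow_nonneg h1.le _

theorem wt_mono {d : ℝ} (hd : 1 < d) {D D' : ℂ → ℝ} {l : List ℂ} (h : ∀ c ∈ l, 0 < D c ∧ D c ≤ D' c) :
    wt d D' l ≤ wt d D l := by
  have := wt_scale hd (D := D') (D' := D) (l := l) (t := 1) one_pos
    (fun c hc => ⟨(h c hc).1, by rw [one_mul]; exact (h c hc).2⟩)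
  rwa [Real.one_rpow, one_mul] at this

end H74G
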