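import Pool.Agent.Lib.H74G.Defs
import Pool.Agent.Lib.H74G.P6
import Pool.Agent.Lib.H74G.B5
import Pool.Agent.Lib.H74F.B1

/-!
# Chunk P7a (M)
One step for the modified distances `D_c(y) = min (infDist y (PP f c)) (ε * dist y a)`, `c ∈ l`, `a ∈ PP f c`. `E` from `Step` (`y ≠ a` because `y ∉ K`). Claim `0 < D_c(g y) ≤ E * D_c(y)` (`g = f^[p]`): positivity by `pos_infDist` (H74G.B5) and `g y ≠ a`. If
`infDist y (PP f c) ≤ ε * dist y a`, let `y'` be a nearest point of `PP f c` (closed, contained in the compact `K`, so compact: `IsCompact.exists_infDist_eq_dist`); `g y' ∈ PP f c` (`PP_maps` iterated), so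
`D_c(g y) ≤ infDist (g y) (PP f c) ≤ dist (g y) (g y') ≤ E * dist y y' = E * D_c(y)`. Otherwise `D_c(y) = ε * dist y a` and `D_c(g y) ≤ ε * dist (g y) a ≤ ε * (E * dist y a)`. `wt_scale` with `t = E`: `E^(-bs len) W(y) ≤ W(g y)`, and `E^(-(1-θ)) ≤ E^(-bs len)` since
`E ≥ 1`, `bs len ≤ 1 - θ`. With `‖deriv g y‖ ≥ (1 + c t) E^(1-θ)`, `t = ‖α (y-a)^q‖`: `W(g y) ‖deriv g y‖ ≥ (1 + c t) W(y)`. Finally `dist (g y) a / dist y a ≤ 1 + 2 t ≤ (1 + c t)^(2/c)` (Bernoulli `one_add_mul_self_le_rpow_one_add`, `2/c ≥ 1`), so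
`(dist (g y) a / dist y a)^(c/2) ≤ 1 + c t`.
-/

set_option autoImplicit false

open Set Filter Topology Metric

namespace H74G

open H74F

theorem wt_step {f : ℂ → ℂ} {K : Set ℂ} (h : Dc f K) {d : ℝ} (hd : 1 < d) {a : ℂ} (ha : a ∈ K) {p q : ℕ} {α : ℂ}
    {θ ε c r : ℝ} (hs : Step f^[p] a q α θ ε c r) {l : List ℂ} (hl : l ∈ chains f K) (hθ : bs d l.length ≤ 1 - θ)
    (hal : ∀ b ∈ l, a ∈ PP f b) {y : ℂ} (hy : dist y a < r) (hsec : Sec a q α y) (hyK : y ∉ K) (hgK : f^[p] y ∉ K) :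
    (dist (f^[p] y) a / dist y a) ^ (c / 2) * wt d (fun b => min (infDist y (PP f b)) (ε * dist y a)) l ≤
      wt d (fun b => min (infDist (f^[p] y) (PP f b)) (ε * dist (f^[p] y) a)) l * ‖deriv f^[p] y‖ := by
  obtain ⟨hε, hε1, hc, hc1, hr, hr1, hstep⟩ := hs
  have hya : y ≠ a := fun e => hyK (by rw [e]; exact ha)
  have hga : f^[p] y ≠ a := fun e => hgK (by rw [e]; exact ha)
  obtain ⟨E, hE1, hED, hEL, hEa, hup, -⟩ := hstep y hya hy hsec
  have hE0 : 0 < E := lt_of_lt_of_le one_pos hE1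
  have hdy : 0 < dist y a := dist_pos.2 hya
  have hdg : 0 < dist (f^[p] y) a := dist_pos.2 hga
  set t : ℝ := ‖α * (y - a) ^ q‖ with ht
  have ht0 : 0 ≤ t := norm_nonneg _
  have hD : ∀ b ∈ l, 0 < min (infDist y (PP f b)) (ε * dist y a) := by
    intro b hb
    exact lt_min (pos_infDist h (hl.1 b hb).1 hyK) (mul_pos hε hdy)
  have hD' : ∀ b ∈ l, 0 < min (infDist (f^[p] y) (PP f b)) (ε * dist (f^[p] y) a) ∧
      min (infDist (f^[p] y) (PP f b)) (ε * dist (f^[p] y) a) ≤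
        E * min (infDist y (PP f b)) (ε * dist y a) := by
    intro b hb
    have hbK : b ∈ K := (hl.1 b hb).1
    refine ⟨lt_min (pos_infDist h hbK hgK) (mul_pos hε hdg), ?_⟩
    rcases le_total (infDist y (PP f b)) (ε * dist y a) with hle | hle
    · rw [min_eq_left hle]
      have hcomp : IsCompact (PP f b) :=
        h.cpt.of_isClosed_subset isClosed_closure (PP_sub h.cpt.isClosed h.maps hbK)
      obtain ⟨y', hy', hd'⟩ := hcomp.exists_infDist_eq_dist ⟨f b, map_mem_PP f b⟩ y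
      have hgy' : f^[p] y' ∈ PP f b := (PP_maps h.entire.continuous b).iterate p hy'
      rw [hd'] at hle ⊢
      calc min (infDist (f^[p] y) (PP f b)) (ε * dist (f^[p] y) a)
          ≤ infDist (f^[p] y) (PP f b) := min_le_left _ _
        _ ≤ dist (f^[p] y) (f^[p] y') := infDist_le_dist_of_mem hgy'
        _ ≤ E * dist y y' := hEL y' hle
    · rw [min_eq_right hle]
      calc min (infDist (f^[p] y) (PP f b)) (ε * dist (f^[p] y) a)
          ≤ ε * dist (f^[p] y) a := min_le_right _ _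
        _ ≤ ε * (E * dist y a) := mul_le_mul_of_nonneg_left hEa hε.le
        _ = E * (ε * dist y a) := by ring
  have hW : 0 < wt d (fun b => min (infDist y (PP f b)) (ε * dist y a)) l := wt_pos hD
  have h1 := wt_scale hd (D := fun b => min (infDist y (PP f b)) (ε * dist y a))
    (D' := fun b => min (infDist (f^[p] y) (PP f b)) (ε * dist (f^[p] y) a)) (l := l) hE0 hD'
  have h2 : E ^ (-(1 - θ)) ≤ E ^ (-bs d l.length) :=
    Real.rpow_le_rpow_of_exponent_le hE1 (by linarith)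
  have h3 : (dist (f^[p] y) a / dist y a) ^ (c / 2) ≤ 1 + c * t := by
    have h4 : dist (f^[p] y) a / dist y a ≤ 1 + 2 * t := by
      rw [div_le_iff₀ hdy]
      exact hup
    have h5 : (1 + 2 * t) ^ (c / 2) ≤ 1 + c / 2 * (2 * t) :=
      _root_.rpow_one_add_le_one_add_mul_self (by linarith) (by linarith) (by linarith)
    calc (dist (f^[p] y) a / dist y a) ^ (c / 2) ≤ (1 + 2 * t) ^ (c / 2) :=
          Real.rpow_le_rpow (div_nonneg hdg.le hdy.le) h4 (by linarith)
      _ ≤ 1 + c / 2 * (2 * t) := h5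
      _ = 1 + c * t := by ring
  set W := wt d (fun b => min (infDist y (PP f b)) (ε * dist y a)) l with hWdef
  set W' := wt d (fun b => min (infDist (f^[p] y) (PP f b)) (ε * dist (f^[p] y) a)) l with hWdef'
  have h6 : E ^ (-(1 - θ)) * W ≤ W' := (mul_le_mul_of_nonneg_right h2 hW.le).trans h1
  have h7 : 0 ≤ (1 + c * t) * E ^ (1 - θ) :=
    mul_nonneg (by positivity) (Real.rpow_nonneg hE0.le _)
  have h8 : E ^ (-(1 - θ)) * E ^ (1 - θ) = 1 := by
    rw [← Real.rpow_add hE0]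
    simp
  calc (dist (f^[p] y) a / dist y a) ^ (c / 2) * W ≤ (1 + c * t) * W :=
        mul_le_mul_of_nonneg_right h3 hW.le
    _ = (E ^ (-(1 - θ)) * W) * ((1 + c * t) * E ^ (1 - θ)) := by
        calc (1 + c * t) * W = (E ^ (-(1 - θ)) * E ^ (1 - θ)) * ((1 + c * t) * W) := by rw [h8, one_mul]
          _ = _ := by ring
    _ ≤ W' * ‖deriv f^[p] y‖ := by
        refine mul_le_mul h6 hED h7 ?_
        exact (mul_nonneg (Real.rpow_nonneg hE0.le _) hW.le).trans h6

end H74G
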