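import Pool.Agent.Lib.H74G.Defs
import Pool.Agent.Lib.H74G.P6
import Pool.Agent.Lib.H74G.P7a
import Pool.Agent.Lib.H74G.B5

/-!
# Chunk P7b (M)
With `g = f^[p]`, `y_k = g^[k] y`, `W_k = wt d (fun b => min (infDist y_k (PP f b)) (ε * dist y_k a)) l`: by induction on `k ≤ N` (`wt_step`, chain rule `deriv g^[k+1] y = deriv g y_k * deriv g^[k] y`, `dist y_k a > 0`, product of the powers by `Real.mul_rpow`)
`(dist y_k a / dist y a)^(c/2) * W_0 ≤ W_k * ‖deriv g^[k] y‖`. Then `W_0 ≥ tau l y` (`wt_mono`, `tau_eq_wt`: `min ≤ infDist`) and `ε * W_N ≤ tau l y_N`: `a ∈ PP f b`, so `infDist y_N (PP f b) ≤ dist y_N a` and `min (infDist) (ε dist) ≥ ε * infDist`; so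
`wt_scale` with `t = ε⁻¹`: `infDist ≤ ε⁻¹ * min`, gives `(ε⁻¹)^(-bs len) * W_N ≤ tau l y_N` and `(ε⁻¹)^(-bs len) = ε^(bs len) ≥ ε` (`0 < ε ≤ 1`, `bs len ≤ 1`: `bs_lt_one`).
-/

set_option autoImplicit false

open Set Filter Topology Metric

namespace H74G

open H74F

theorem P7b_deriv {g : ℂ → ℂ} (hg : Differentiable ℂ g) (k : ℕ) (y : ℂ) :
    deriv g^[k + 1] y = deriv g (g^[k] y) * deriv g^[k] y := by
  rw [Function.iterate_succ']
  exact deriv_comp y hg.differentiableAt (hg.iterate k).differentiableAt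

theorem par_iter {f : ℂ → ℂ} {K : Set ℂ} (h : Dc f K) {d : ℝ} (hd : 1 < d) {a : ℂ} (ha : a ∈ K) {p q : ℕ} {α : ℂ}
    {θ ε c r : ℝ} (hs : Step f^[p] a q α θ ε c r) {l : List ℂ} (hl : l ∈ chains f K) (hθ : bs d l.length ≤ 1 - θ)
    (hal : ∀ b ∈ l, a ∈ PP f b) {y : ℂ} {N : ℕ}
    (hy : ∀ k < N, dist ((f^[p])^[k] y) a < r ∧ Sec a q α ((f^[p])^[k] y)) (hK : ∀ k ≤ N, (f^[p])^[k] y ∉ K) :
    ε * (dist ((f^[p])^[N] y) a / dist y a) ^ (c / 2) * tau f d l y ≤
      tau f d l ((f^[p])^[N] y) * ‖deriv (f^[p])^[N] y‖ := by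
  have hs' := hs
  obtain ⟨hε, hε1, hc, hc1, hr, hr1, -⟩ := hs'
  have hg : Differentiable ℂ f^[p] := h.entire.iterate p
  have hpos : ∀ k ≤ N, 0 < dist ((f^[p])^[k] y) a := fun k hk =>
    dist_pos.2 (fun e => hK k hk (by rw [e]; exact ha))
  have hD : ∀ k ≤ N, ∀ b ∈ l, 0 < min (infDist ((f^[p])^[k] y) (PP f b)) (ε * dist ((f^[p])^[k] y) a) := by
    intro k hk b hb
    exact lt_min (pos_infDist h (hl.1 b hb).1 (hK k hk)) (mul_pos hε (hpos k hk))
  have hy0 : 0 < dist y a := by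
    have := hpos 0 (Nat.zero_le N)
    simpa using this
  have key : ∀ k ≤ N, (dist ((f^[p])^[k] y) a / dist y a) ^ (c / 2) *
      wt d (fun b => min (infDist y (PP f b)) (ε * dist y a)) l ≤
      wt d (fun b => min (infDist ((f^[p])^[k] y) (PP f b)) (ε * dist ((f^[p])^[k] y) a)) l *
        ‖deriv (f^[p])^[k] y‖ := by
    intro k
    induction k with
    | zero =>
      intro _
      have h1 : deriv (f^[p])^[0] y = 1 := by
        rw [Function.iterate_zero]
        exact deriv_id y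
      rw [h1, norm_one, mul_one, Function.iterate_zero, id_eq, div_self hy0.ne', Real.one_rpow, one_mul]
    | succ k ih =>
      intro hk
      have hkN : k < N := Nat.lt_of_succ_le hk
      have ih' := ih hkN.le
      have h1 := wt_step h hd ha hs hl hθ hal (hy k hkN).1 (hy k hkN).2 (hK k hkN.le)
        (by rw [← Function.iterate_succ_apply' (f^[p]) k y]; exact hK (k + 1) hk)
      rw [← Function.iterate_succ_apply' (f^[p]) k y] at h1
      rw [P7b_deriv hg k y, norm_mul]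
      have hk0 := hpos k hkN.le
      have hk1 := hpos (k + 1) hk
      have h2 : (dist ((f^[p])^[k + 1] y) a / dist y a) ^ (c / 2) =
          (dist ((f^[p])^[k + 1] y) a / dist ((f^[p])^[k] y) a) ^ (c / 2) *
            (dist ((f^[p])^[k] y) a / dist y a) ^ (c / 2) := by
        rw [← Real.mul_rpow (div_nonneg hk1.le hk0.le) (div_nonneg hk0.le hy0.le)]
        congr 1
        field_simp
      have hA : 0 ≤ (dist ((f^[p])^[k + 1] y) a / dist ((f^[p])^[k] y) a) ^ (c / 2) :=
        Real.rpow_nonneg (div_nonneg hk1.le hk0.le) _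
      rw [h2]
      have h3 := mul_le_mul_of_nonneg_left ih' hA
      have h4 := mul_le_mul_of_nonneg_right h1 (norm_nonneg (deriv (f^[p])^[k] y))
      calc _ = (dist ((f^[p])^[k + 1] y) a / dist ((f^[p])^[k] y) a) ^ (c / 2) *
            ((dist ((f^[p])^[k] y) a / dist y a) ^ (c / 2) *
              wt d (fun b => min (infDist y (PP f b)) (ε * dist y a)) l) := by ring
        _ ≤ _ := h3
        _ = ((dist ((f^[p])^[k + 1] y) a / dist ((f^[p])^[k] y) a) ^ (c / 2) *
              wt d (fun b => min (infDist ((f^[p])^[k] y) (PP f b))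
                (ε * dist ((f^[p])^[k] y) a)) l) * ‖deriv (f^[p])^[k] y‖ := by ring
        _ ≤ _ := h4
        _ = _ := by ring
  have hfin := key N le_rfl
  have hW0 : tau f d l y ≤ wt d (fun b => min (infDist y (PP f b)) (ε * dist y a)) l := by
    rw [tau_eq_wt]
    refine wt_mono hd (fun b hb => ⟨?_, min_le_left _ _⟩)
    have := hD 0 (Nat.zero_le N) b hb
    simpa using this
  have hWN : ε * wt d (fun b => min (infDist ((f^[p])^[N] y) (PP f b)) (ε * dist ((f^[p])^[N] y) a)) l ≤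
      tau f d l ((f^[p])^[N] y) := by
    rw [tau_eq_wt]
    have hWpos : 0 < wt d (fun b => min (infDist ((f^[p])^[N] y) (PP f b)) (ε * dist ((f^[p])^[N] y) a)) l :=
      wt_pos (hD N le_rfl)
    have h1 := wt_scale hd (D := fun b => min (infDist ((f^[p])^[N] y) (PP f b)) (ε * dist ((f^[p])^[N] y) a))
      (D' := fun b => infDist ((f^[p])^[N] y) (PP f b)) (l := l) (t := ε⁻¹) (inv_pos.2 hε) (by
        intro b hb
        have h2 := pos_infDist h (hl.1 b hb).1 (hK N le_rfl)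
        refine ⟨h2, ?_⟩
        rw [← div_eq_inv_mul, le_div_iff₀ hε, le_min_iff]
        have h3 : infDist ((f^[p])^[N] y) (PP f b) ≤ dist ((f^[p])^[N] y) a :=
          infDist_le_dist_of_mem (hal b hb)
        constructor
        · nlinarith
        · rw [mul_comm]
          exact mul_le_mul_of_nonneg_left h3 hε.le)
    have h2 : ε ≤ (ε⁻¹) ^ (-bs d l.length) := by
      rw [Real.inv_rpow hε.le, Real.rpow_neg hε.le, inv_inv]
      have h3 : bs d l.length ≤ 1 := (bs_lt_one hd l.length).le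
      calc ε = ε ^ (1 : ℝ) := (Real.rpow_one ε).symm
        _ ≤ ε ^ (bs d l.length) := Real.rpow_le_rpow_of_exponent_ge hε hε1 h3
    exact (mul_le_mul_of_nonneg_right h2 hWpos.le).trans h1
  have hR : 0 ≤ (dist ((f^[p])^[N] y) a / dist y a) ^ (c / 2) :=
    Real.rpow_nonneg (div_nonneg (hpos N le_rfl).le hy0.le) _
  calc ε * (dist ((f^[p])^[N] y) a / dist y a) ^ (c / 2) * tau f d l y
      ≤ ε * (dist ((f^[p])^[N] y) a / dist y a) ^ (c / 2) *
        wt d (fun b => min (infDist y (PP f b)) (ε * dist y a)) l :=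
        mul_le_mul_of_nonneg_left hW0 (mul_nonneg hε.le hR)
    _ = ε * ((dist ((f^[p])^[N] y) a / dist y a) ^ (c / 2) *
        wt d (fun b => min (infDist y (PP f b)) (ε * dist y a)) l) := by ring
    _ ≤ ε * (wt d (fun b => min (infDist ((f^[p])^[N] y) (PP f b)) (ε * dist ((f^[p])^[N] y) a)) l *
        ‖deriv (f^[p])^[N] y‖) := mul_le_mul_of_nonneg_left hfin hε.le
    _ = (ε * wt d (fun b => min (infDist ((f^[p])^[N] y) (PP f b)) (ε * dist ((f^[p])^[N] y) a)) l) *
        ‖deriv (f^[p])^[N] y‖ := by ring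
    _ ≤ tau f d l ((f^[p])^[N] y) * ‖deriv (f^[p])^[N] y‖ :=
        mul_le_mul_of_nonneg_right hWN (norm_nonneg _)

end H74G
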