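import Pool.Agent.Lib.H74G.Defs

/-!
# Chunk P8 (S)
`λ = 1 + ‖α‖ s^q / 4 > 1`; `N` with `r ≤ s λ^N`. While `dist (g^[k] y) a < r` (and `≥ s`, by induction) the last item of `Step` gives `dist (g^[k+1] y) a ≥ λ dist (g^[k] y) a` (`‖α (x - a)^q‖ ≥ ‖α‖ s^q` when `dist x a ≥ s`; `x ≠ a`), so
`dist (g^[k] y) a ≥ s λ^k` as long as all earlier points are in the ball. So some `k ≤ N` has `r ≤ dist (g^[k] y) a`; the least such `k` (`Nat.find`) is `≥ 1`.
-/

set_option autoImplicit false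

open Set Filter Topology Metric

namespace H74G

open H74F

theorem exit_time {g : ℂ → ℂ} {a : ℂ} {q : ℕ} {α : ℂ} {θ ε c r : ℝ} (h : Step g a q α θ ε c r) (hα : α ≠ 0)
    {s : ℝ} (hs : 0 < s) : ∃ N : ℕ, ∀ y, s ≤ dist y a → dist y a < r →
      (∀ k, dist (g^[k] y) a < r → Sec a q α (g^[k] y)) →
      ∃ n, 1 ≤ n ∧ n ≤ N ∧ (∀ k < n, dist (g^[k] y) a < r) ∧ r ≤ dist (g^[n] y) a := by
  obtain ⟨-, -, -, -, -, -, hstep⟩ := h
  have hαp : 0 < ‖α‖ := norm_pos_iff.2 hα
  set ρ : ℝ := ‖α‖ * s ^ q / 4 with hρ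
  have hρ0 : 0 < ρ := by positivity
  have hlam : 1 < 1 + ρ := by linarith
  obtain ⟨N, hN⟩ : ∃ N : ℕ, r / s < (1 + ρ) ^ N := pow_unbounded_of_one_lt _ hlam
  have hN' : r < s * (1 + ρ) ^ N := by
    rw [div_lt_iff₀ hs] at hN
    linarith
  refine ⟨N, fun y hy hyr hsec => ?_⟩
  have claim : ∀ k : ℕ, (∀ i < k, dist (g^[i] y) a < r) → s * (1 + ρ) ^ k ≤ dist (g^[k] y) a := by
    intro k
    induction k with
    | zero =>
      intro _
      simpa using hy
    | succ k ih =>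
      intro hk
      have h1 := ih fun i hi => hk i (Nat.lt_succ_of_lt hi)
      have h2 := hk k (Nat.lt_succ_self k)
      have hpow : (1 : ℝ) ≤ (1 + ρ) ^ k := one_le_pow₀ hlam.le
      have h3 : s ≤ dist (g^[k] y) a := le_trans (le_mul_of_one_le_right hs.le hpow) h1
      have h4 : g^[k] y ≠ a := by
        intro h0
        rw [h0, dist_self] at h3
        linarith
      obtain ⟨E, -, -, -, -, -, h5⟩ := hstep _ h4 h2 (hsec k h2)
      rw [Function.iterate_succ_apply']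
      refine le_trans ?_ h5
      have h6 : ρ ≤ ‖α * (g^[k] y - a) ^ q‖ / 4 := by
        rw [norm_mul, norm_pow, ← dist_eq_norm, hρ]
        gcongr
      calc s * (1 + ρ) ^ (k + 1) = (1 + ρ) * (s * (1 + ρ) ^ k) := by ring
        _ ≤ (1 + ‖α * (g^[k] y - a) ^ q‖ / 4) * dist (g^[k] y) a := by
          apply mul_le_mul (by linarith) h1 (by positivity) (by linarith)
  have hex : ∃ n, r ≤ dist (g^[n] y) a ∧ n ≤ N := by
    by_contra hcon
    push Not at hcon
    have h1 : ∀ i ≤ N, dist (g^[i] y) a < r := by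
      intro i hi
      by_contra h2
      push Not at h2
      exact absurd hi (not_le.2 (hcon i h2))
    have h2 := claim N fun i hi => h1 i hi.le
    have h3 := h1 N le_rfl
    linarith
  have hex' : ∃ n, r ≤ dist (g^[n] y) a := ⟨hex.choose, hex.choose_spec.1⟩
  classical
  refine ⟨Nat.find hex', ?_, ?_, ?_, Nat.find_spec hex'⟩
  · rw [Nat.one_le_iff_ne_zero]
    intro h0
    have h1 := Nat.find_spec hex'
    rw [h0] at h1
    simp only [Function.iterate_zero, id_eq] at h1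
    linarith
  · exact (Nat.find_min' hex' hex.choose_spec.1).trans hex.choose_spec.2
  · intro k hk
    have h1 := Nat.find_min hex' hk
    push Not at h1
    exact h1

theorem step_mono {g : ℂ → ℂ} {a : ℂ} {q : ℕ} {α : ℂ} {θ ε c r r' : ℝ} (h : Step g a q α θ ε c r) (hr : 0 < r')
    (hr' : r' ≤ r) : Step g a q α θ ε c r' := by
  obtain ⟨h1, h2, h3, h4, h5, h6, h7⟩ := h
  exact ⟨h1, h2, h3, h4, hr, hr'.trans h6, fun y hy hd => h7 y hy (hd.trans_le hr')⟩

end H74G
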