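import Pool.Agent.Lib.H74G.Defs
import Pool.Agent.Lib.H74G.P1
import Pool.Agent.Lib.H74G.P2
import Pool.Agent.Lib.H74G.P3
import Pool.Agent.Lib.H74G.P4c
import Pool.Agent.Lib.H74G.P5c
import Pool.Agent.Lib.H74G.P7b
import Pool.Agent.Lib.H74G.P8
import Pool.Agent.Lib.H74G.B3
import Pool.Agent.Lib.H74G.B5
import Pool.Agent.Lib.H74G.C3

/-!
# Chunk P9 (L)
The passage near a parabolic point. `hpar`: `p ≥ 1`, `g = f^[p]`, `g a = a`, `deriv g a = 1`; `g ≠ id` (`iter_ne_id`), `exists_exp`: `q, α, C, r0`. `core h : Dc f K`, `sigma_len`: `θ`. `par_step`: `ε, c, r1`; `par_attract`: `r2`; `δ ∈ (0,1]` with `2 δ ≤ infDist a (PP f b)` for all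
`b ∈ crit f K` with `a ∉ PP f b` (`crit_finite`; `h74fc3_unif` in H74G.C3 is exactly this kind of lemma). `r = min r1 r2 δ` (`step_mono`), `κ = c / 2`, `C0 = ε * δ * r^κ`. Let `s > 0`, `N0` from `exit_time`, `N = p * N0`. For `y = f^[m] z` with `s ≤ dist y a < r`: every
`g^[k] y = f^[p k + m] z` that is in the `r`-ball is in the sector, otherwise `par_attract` gives `g^[j] (g^[k] y) → a`, against `not_attracted`. `exit_time`: `n0`. All `g^[k] y ∉ K` (`h.off`). Let `l` be a chain with `sigma y = tau l y` (`exists_sigma`), `l = l1 ++ l2`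
(`chain_split` with `a`); for `b ∈ l1`: `infDist y (PP f b) ≥ infDist a (PP f b) - dist y a ≥ δ`, so `tau l y ≤ δ⁻¹ tau l2 y` (`tau_drop`). `par_iter` for `l2`: `ε (dist (g^[n0] y) a / dist y a)^κ tau l2 y ≤ tau l2 (g^[n0] y) ‖deriv g^[n0] y‖`, and `tau l2 ≤ sigma` (`le_sigma`),
`dist (g^[n0] y) a ≥ r`. So `GG (p * n0) y = sigma (g^[n0] y) ‖deriv g^[n0] y‖ / sigma y ≥ ε δ (r / dist y a)^κ = C0 * dist y a ^ (-κ)` (`Function.iterate_mul`).
-/

set_option autoImplicit false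

open Set Filter Topology Metric

namespace H74G

open H74F

theorem passage {f : ℂ → ℂ} {K : Set ℂ} {z : ℂ} (h : Dz f K z) {d : ℝ} (hd : 1 < d) {a : ℂ} (ha : a ∈ K)
    (hpar : Par f a) : ∃ C0 κ r : ℝ, 0 < C0 ∧ 0 < κ ∧ 0 < r ∧ ∀ s : ℝ, 0 < s → ∃ N : ℕ, ∀ m : ℕ,
      s ≤ dist (f^[m] z) a → dist (f^[m] z) a < r →
      ∃ n : ℕ, 1 ≤ n ∧ n ≤ N ∧ C0 * dist (f^[m] z) a ^ (-κ) ≤ GG f K d n (f^[m] z) := by
  obtain ⟨p, hp, hpa, hpd⟩ := hpar
  have hc : Dc f K := core h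
  have hgd : Differentiable ℂ f^[p] := h.entire.iterate p
  have hgne : f^[p] ≠ id := iter_ne_id h hp
  obtain ⟨q, α, C, r0, hexp⟩ := exists_exp hgd hpa hpd hgne
  have hα : α ≠ 0 := hexp.2.1
  obtain ⟨θ, hθ, hθ1, hlen, -⟩ := sigma_len hc hd
  obtain ⟨ε, c, r1, hstep⟩ := par_step hgd hexp hθ hθ1
  obtain ⟨r2, hr2, -, hattr⟩ := par_attract hexp hpa
  have hcl : ∀ c, IsClosed (PP f c) := fun c => isClosed_closure
  have hne : ∀ c, (PP f c).Nonempty := fun c => ⟨f c, map_mem_PP f c⟩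
  have hcont : Continuous f := h.entire.continuous
  obtain ⟨δ0, hδ0, hδ1, hδc⟩ := h74fc3_unif (S := {c | c ∈ crit f K ∧ a ∉ PP f c})
    ((crit_finite hc).subset fun c hc => hc.1) (fun c => infDist a (PP f c))
    (fun c hc => ((hcl c).notMem_iff_infDist_pos (hne c)).1 hc.2)
  have hr1 : 0 < r1 := hstep.2.2.2.2.1
  obtain ⟨r, hr, hrr1, hrr2, hrδ⟩ : ∃ r : ℝ, 0 < r ∧ r ≤ r1 ∧ r ≤ r2 ∧ r ≤ δ0 :=
    ⟨min (min r1 r2) δ0, lt_min (lt_min hr1 hr2) hδ0, (min_le_left _ _).trans (min_le_left _ _),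
      (min_le_left _ _).trans (min_le_right _ _), min_le_right _ _⟩
  have hstep' : Step f^[p] a q α θ ε c r := step_mono hstep hr hrr1
  have hε : 0 < ε := hstep.1
  have hc0 : 0 < c := hstep.2.2.1
  refine ⟨ε * δ0 * r ^ (c / 2), c / 2, r, mul_pos (mul_pos hε hδ0) (Real.rpow_pos_of_pos hr _), by linarith, hr,
    fun s hs => ?_⟩
  obtain ⟨N0, hN0⟩ := exit_time hstep' hα hs
  refine ⟨p * N0, fun m hsm hrm => ?_⟩
  have hit : ∀ k : ℕ, (f^[p])^[k] (f^[m] z) = f^[p * k + m] z := by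
    intro k
    rw [← Function.iterate_mul, Function.iterate_add_apply]
  have hoff : ∀ k : ℕ, (f^[p])^[k] (f^[m] z) ∉ K := by
    intro k
    rw [hit k]
    exact h.off _
  have hsec : ∀ k, dist ((f^[p])^[k] (f^[m] z)) a < r → Sec a q α ((f^[p])^[k] (f^[m] z)) := by
    intro k hk
    by_contra hns
    have h1 := hattr _ (hk.trans_le hrr2) hns
    rw [hit k] at h1
    exact not_attracted h hp (p * k + m) h1
  obtain ⟨n0, hn1, hnN, hin, hout⟩ := hN0 (f^[m] z) hsm hrm hsec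
  have hyK : f^[m] z ∉ K := h.off m
  set y := f^[m] z with hy
  refine ⟨p * n0, Nat.mul_pos hp hn1, Nat.mul_le_mul_left p hnN, ?_⟩
  obtain ⟨l, hl, hσ⟩ := exists_sigma hc d y
  obtain ⟨l1, l2, rfl, hl2, ha1, ha2⟩ := chain_split hcont hl a
  have hy1 : dist y a < δ0 := hrm.trans_le hrδ
  have hdrop : tau f d (l1 ++ l2) y ≤ δ0⁻¹ * tau f d l2 y := by
    refine tau_drop hd hδ0 hδ1 (fun b hb => ?_) (fun b hb => ?_)
    · have h1 := hδc b ⟨hl.1 b (List.mem_append.2 (Or.inl hb)), ha1 b hb⟩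
      have h2 : infDist a (PP f b) ≤ infDist y (PP f b) + dist a y := infDist_le_infDist_add_dist
      rw [dist_comm] at h2
      linarith
    · exact pos_infDist hc (hl2.1 b hb).1 hyK
  have hiter := par_iter hc hd ha hstep' hl2 (hlen l2 hl2) ha2 (y := y) (N := n0)
    (fun k hk => ⟨hin k hk, hsec k (hin k hk)⟩) (fun k _ => hoff k)
  have hd0 : 0 < dist y a := hs.trans_le hsm
  have hσ1 : 1 ≤ sigma f K d y := one_le_sigma hc d y
  have hσ0 : 0 < sigma f K d y := by linarith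
  have h5 : δ0 * sigma f K d y ≤ tau f d l2 y := by
    rw [hσ]
    calc δ0 * tau f d (l1 ++ l2) y ≤ δ0 * (δ0⁻¹ * tau f d l2 y) := mul_le_mul_of_nonneg_left hdrop hδ0.le
      _ = tau f d l2 y := by rw [← mul_assoc, mul_inv_cancel₀ hδ0.ne', one_mul]
  have h6 : r ^ (c / 2) * dist y a ^ (-(c / 2)) = (r / dist y a) ^ (c / 2) := by
    rw [Real.div_rpow hr.le hd0.le, Real.rpow_neg hd0.le]
    exact (div_eq_mul_inv _ _).symm
  have h7 : (r / dist y a) ^ (c / 2) ≤ (dist ((f^[p])^[n0] y) a / dist y a) ^ (c / 2) :=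
    Real.rpow_le_rpow (div_nonneg hr.le hd0.le) (div_le_div_of_nonneg_right hout hd0.le) (by linarith)
  have h8 : tau f d l2 ((f^[p])^[n0] y) ≤ sigma f K d ((f^[p])^[n0] y) := le_sigma hc d hl2 _
  have hGG : GG f K d (p * n0) y = sigma f K d ((f^[p])^[n0] y) * ‖deriv (f^[p])^[n0] y‖ / sigma f K d y := by
    unfold GG
    rw [Function.iterate_mul]
  rw [hGG, le_div_iff₀ hσ0]
  have hQ : 0 ≤ (dist ((f^[p])^[n0] y) a / dist y a) ^ (c / 2) :=
    Real.rpow_nonneg (div_nonneg dist_nonneg hd0.le) _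
  calc ε * δ0 * r ^ (c / 2) * dist y a ^ (-(c / 2)) * sigma f K d y
      = ε * (r ^ (c / 2) * dist y a ^ (-(c / 2))) * (δ0 * sigma f K d y) := by ring
    _ = ε * (r / dist y a) ^ (c / 2) * (δ0 * sigma f K d y) := by rw [h6]
    _ ≤ ε * (dist ((f^[p])^[n0] y) a / dist y a) ^ (c / 2) * tau f d l2 y :=
        mul_le_mul (mul_le_mul_of_nonneg_left h7 hε.le) h5 (mul_nonneg hδ0.le hσ0.le) (mul_nonneg hε.le hQ)
    _ ≤ tau f d l2 ((f^[p])^[n0] y) * ‖deriv (f^[p])^[n0] y‖ := hiter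
    _ ≤ sigma f K d ((f^[p])^[n0] y) * ‖deriv (f^[p])^[n0] y‖ :=
        mul_le_mul_of_nonneg_right h8 (norm_nonneg _)

end H74G
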