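import Pool.Agent.Lib.H74G.Defs
import Pool.Agent.Lib.H74G.P9

/-!
# Chunk P10 (M)
`small`: for every `M` there is `ρ > 0` with `M ≤ C0 * t^(-κ)` for `0 < t < ρ` (`tendsto_rpow_neg_nhdsGT_zero`-type lemma, or `ρ = (max M 1 / C0)^(-1/κ)`). `par_LG`: `r' = min r ρ`; for `dist (f^[m] z) a < r'` use `passage` with `s = dist (f^[m] z) a > 0` (`a ∈ K`, `h.off m`).
`par_QG`: radius `min r ρ / 2`; for `w ≠ a` in it, `s = dist w a / 2`, `SG` with the radius `s` and the `N` of `passage` for `s`: if `dist (f^[m] z) w < s` then `s ≤ dist (f^[m] z) a < 3 s < min r ρ`.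
-/

set_option autoImplicit false

open Set Filter Topology Metric

namespace H74G

open H74F

/-- For small `t` the quantity `C0 * t ^ (-κ)` is large. -/
theorem p10_small {C0 κ : ℝ} (hC : 0 < C0) (hκ : 0 < κ) (M : ℝ) :
    ∃ ρ : ℝ, 0 < ρ ∧ ∀ t : ℝ, 0 < t → t < ρ → M ≤ C0 * t ^ (-κ) := by
  have hQ : 0 < max M 1 / C0 := div_pos (lt_of_lt_of_le one_pos (le_max_right _ _)) hC
  refine ⟨(max M 1 / C0) ^ (-(1 / κ)), Real.rpow_pos_of_pos hQ _, fun t ht htρ => ?_⟩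
  have h1 : ((max M 1 / C0) ^ (-(1 / κ))) ^ (-κ) = max M 1 / C0 := by
    rw [← Real.rpow_mul hQ.le]
    have : -(1 / κ) * -κ = 1 := by field_simp
    rw [this, Real.rpow_one]
  have h2 : ((max M 1 / C0) ^ (-(1 / κ))) ^ (-κ) ≤ t ^ (-κ) :=
    Real.rpow_le_rpow_of_nonpos ht htρ.le (by linarith)
  rw [h1] at h2
  calc M ≤ max M 1 := le_max_left _ _
    _ = C0 * (max M 1 / C0) := by field_simp
    _ ≤ C0 * t ^ (-κ) := mul_le_mul_of_nonneg_left h2 hC.le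

theorem p10_pos {f : ℂ → ℂ} {K : Set ℂ} {z : ℂ} (h : Dz f K z) {a : ℂ} (ha : a ∈ K) (m : ℕ) :
    0 < dist (f^[m] z) a := by
  refine dist_pos.2 ?_
  intro he
  exact h.off m (he ▸ ha)

theorem par_LG {f : ℂ → ℂ} {K : Set ℂ} {z : ℂ} (h : Dz f K z) {d : ℝ} (hd : 1 < d) {a : ℂ} (ha : a ∈ K)
    (hpar : Par f a) : LG f K d z a := by
  obtain ⟨C0, κ, r, hC, hκ, hr, hp⟩ := passage h hd ha hpar
  intro M
  obtain ⟨ρ, hρ, hs⟩ := p10_small hC hκ M
  refine ⟨min r ρ, lt_min hr hρ, fun m hm => ?_⟩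
  have hpos := p10_pos h ha m
  obtain ⟨N, hN⟩ := hp (dist (f^[m] z) a) hpos
  obtain ⟨n, hn1, -, hn⟩ := hN m le_rfl (lt_of_lt_of_le hm (min_le_left _ _))
  exact ⟨n, hn1, le_trans (hs _ hpos (lt_of_lt_of_le hm (min_le_right _ _))) hn⟩

theorem par_QG {f : ℂ → ℂ} {K : Set ℂ} {z : ℂ} (h : Dz f K z) {d : ℝ} (hd : 1 < d) {a : ℂ} (ha : a ∈ K)
    (hpar : Par f a) : QG f K d z a := by
  obtain ⟨C0, κ, r, hC, hκ, hr, hp⟩ := passage h hd ha hpar
  intro M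
  obtain ⟨ρ, hρ, hs⟩ := p10_small hC hκ M
  have hmin : 0 < min r ρ := lt_min hr hρ
  refine ⟨min r ρ / 2, by linarith, fun w hw hwa hwd => ?_⟩
  have hd0 : 0 < dist w a := dist_pos.2 hwa
  obtain ⟨N, hN⟩ := hp (dist w a / 2) (by linarith)
  refine ⟨N, dist w a / 2, by linarith, fun m hm => ?_⟩
  have h1 : dist w a ≤ dist (f^[m] z) w + dist (f^[m] z) a := dist_triangle_left w a (f^[m] z)
  have h2 : dist (f^[m] z) a ≤ dist (f^[m] z) w + dist w a := dist_triangle _ _ _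
  have h3 : dist w a / 2 ≤ dist (f^[m] z) a := by linarith
  have h4 : dist (f^[m] z) a < min r ρ := by linarith
  have hpos := p10_pos h ha m
  obtain ⟨n, hn1, hn2, hn⟩ := hN m h3 (lt_of_lt_of_le h4 (min_le_left _ _))
  exact ⟨n, hn1, hn2, le_trans (hs _ hpos (lt_of_lt_of_le h4 (min_le_right _ _))) hn⟩

end H74G
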