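import Pool.Agent.Lib.H74G.Defs
import Pool.Agent.Lib.H74G.P1
import Pool.Agent.Lib.H74G.C1
import Pool.Agent.Lib.H74G.C4

/-!
# Chunk P11a (M)
`lower_iter`: `lower (core h) hd` gives `m0, η`; `μ = m0^i`. For `w ∈ K` the points `f^[j] w`, `j ≤ i`, lie in `K`; by continuity of the iterates there is `r > 0` such that `dist y w < r` implies `dist (f^[j] y) (f^[j] w) < η` for `j ≤ i`, so `infDist (f^[j] y) K < η`, and for
`y = f^[m] z` all `f^[j] y = f^[j + m] z` are off `K`: `GG_pow`. `SG_pull`: `SG M (f^[i] w)` with `N, r'`: for `y = f^[m] z` near `w` (`dist y w < r` and `dist (f^[i] y) (f^[i] w) < r'`) the point `f^[i] y = f^[i + m] z` has `n` with `M ≤ GG n (f^[i] y)`, and `GG_add`: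
`GG (i + n) y = GG i y * GG n (f^[i] y) ≥ μ M` (`M ≥ 0`). The bound for the time is `i + N`. `LG_pull`: the same (for `M` use `|M| / μ`). `SG_mono` is trivial.
-/

set_option autoImplicit false

open Set Filter Topology Metric

namespace H74G

open H74F

theorem lower_iter {f : ℂ → ℂ} {K : Set ℂ} {z : ℂ} (h : Dz f K z) {d : ℝ} (hd : DOK f K d) (i : ℕ) :
    ∃ μ : ℝ, 0 < μ ∧ ∀ w ∈ K, ∃ r : ℝ, 0 < r ∧ ∀ m : ℕ, dist (f^[m] z) w < r → μ ≤ GG f K d i (f^[m] z) := by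
  obtain ⟨m0, hm0, -, η, hη, hlow⟩ := lower (core h) hd
  refine ⟨m0 ^ i, pow_pos hm0 i, fun w hw => ?_⟩
  have hc : ∀ j : ℕ, Continuous f^[j] := fun j => (h.entire.iterate j).continuous
  have h2 : ∀ᶠ y in 𝓝 w, ∀ j ∈ Finset.range (i + 1), dist (f^[j] y) (f^[j] w) < η := by
    rw [Filter.eventually_all_finset]
    intro j _
    exact Metric.tendsto_nhds.1 (hc j).continuousAt η hη
  obtain ⟨r, hr, hr2⟩ := Metric.eventually_nhds_iff.1 h2
  refine ⟨r, hr, fun m hm => ?_⟩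
  have hd' := hr2 hm
  refine GG_pow (core h) hm0 hlow (fun j hj => ?_) (fun j _ => ?_)
  · exact (infDist_le_dist_of_mem (h.maps.iterate j hw)).trans_lt (hd' j (Finset.mem_range.2 (by omega)))
  · rw [← Function.iterate_add_apply]
    exact h.off (j + m)

theorem SG_pull {f : ℂ → ℂ} {K : Set ℂ} {z : ℂ} (h : Dz f K z) {d : ℝ} (hd : DOK f K d) (i : ℕ) :
    ∃ μ : ℝ, 0 < μ ∧ ∀ w ∈ K, ∀ M : ℝ, 0 ≤ M → SG f K d z M (f^[i] w) → SG f K d z (μ * M) w := by
  obtain ⟨μ, hμ, hlo⟩ := lower_iter h hd i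
  refine ⟨μ, hμ, fun w hw M hM hs => ?_⟩
  obtain ⟨N, r', hr', hs⟩ := hs
  obtain ⟨r, hr, hlo⟩ := hlo w hw
  have hcont : ContinuousAt f^[i] w := (h.entire.iterate i).continuous.continuousAt
  obtain ⟨r2, hr2, hc⟩ := Metric.continuousAt_iff.1 hcont r' hr'
  refine ⟨i + N, min r r2, lt_min hr hr2, fun m hm => ?_⟩
  have h1 := hlo m (hm.trans_le (min_le_left _ _))
  have h2 := hc (hm.trans_le (min_le_right _ _))
  rw [← Function.iterate_add_apply] at h2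
  obtain ⟨n, hn1, hn2, hn3⟩ := hs (i + m) h2
  refine ⟨i + n, by omega, by omega, ?_⟩
  rw [GG_add (core h), ← Function.iterate_add_apply]
  exact mul_le_mul h1 hn3 hM (hμ.le.trans h1)

theorem LG_pull {f : ℂ → ℂ} {K : Set ℂ} {z : ℂ} (h : Dz f K z) {d : ℝ} (hd : DOK f K d) (i : ℕ) {w : ℂ} (hw : w ∈ K)
    (hl : LG f K d z (f^[i] w)) : LG f K d z w := by
  intro M
  obtain ⟨μ, hμ, hlo⟩ := lower_iter h hd i
  obtain ⟨r, hr, hlo⟩ := hlo w hw
  obtain ⟨r', hr', hs⟩ := hl (|M| / μ)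
  have hcont : ContinuousAt f^[i] w := (h.entire.iterate i).continuous.continuousAt
  obtain ⟨r2, hr2, hc⟩ := Metric.continuousAt_iff.1 hcont r' hr'
  refine ⟨min r r2, lt_min hr hr2, fun m hm => ?_⟩
  have h1 := hlo m (hm.trans_le (min_le_left _ _))
  have h2 := hc (hm.trans_le (min_le_right _ _))
  rw [← Function.iterate_add_apply] at h2
  obtain ⟨n, hn1, hn3⟩ := hs (i + m) h2
  refine ⟨i + n, by omega, ?_⟩
  rw [GG_add (core h), ← Function.iterate_add_apply]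
  calc M ≤ |M| := le_abs_self M
    _ = μ * (|M| / μ) := by field_simp
    _ ≤ _ := mul_le_mul h1 hn3 (by positivity) (hμ.le.trans h1)

theorem SG_mono {f : ℂ → ℂ} {K : Set ℂ} {d : ℝ} {z : ℂ} {M M' : ℝ} (hM : M' ≤ M) {w : ℂ} (h : SG f K d z M w) :
    SG f K d z M' w := by
  obtain ⟨N, r, hr, hs⟩ := h
  refine ⟨N, r, hr, fun m hm => ?_⟩
  obtain ⟨n, h1, h2, h3⟩ := hs m hm
  exact ⟨n, h1, h2, hM.trans h3⟩

end H74G
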