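import Pool.Agent.Lib.H74G.Defs
import Pool.Agent.Lib.H74G.P10
import Pool.Agent.Lib.H74G.P11a

/-!
# Chunk P11b (M)
`x ∈ K` with `a = f^[i] x` parabolic (`a ∈ K`). `pre_LG`: `par_LG` at `a` and `LG_pull`. `isolated`: `f^[i]` is entire; if `f^[i] w = a` for `w ≠ x` arbitrarily close to `x` then `f^[i]` is constant `= a` (identity theorem, `AnalyticOnNhd.eqOn_of_preconnected_of_frequently_eq` or
the dichotomy `AnalyticAt.eventually_eq_or_eventually_ne`), so `f^[n] z = a` for all `n ≥ i`, which is impossible (`a ∈ K`, `h.off`). `pre_QG`: `SG_pull`: `μ`; `par_QG` at `a` for `|M| / μ`: `ρ`; radius `r` such that `dist w x < r`, `w ≠ x` imply `f^[i] w ≠ a` and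
`dist (f^[i] w) a < ρ`; then `SG (|M| / μ) (f^[i] w)`, so `SG |M| w` and `SG_mono`.
-/

set_option autoImplicit false

open Set Filter Topology Metric

namespace H74G

open H74F

private theorem P11b_isolated {f : ℂ → ℂ} {K : Set ℂ} {z : ℂ} (h : Dz f K z) (i : ℕ) {x : ℂ} (ha : f^[i] x ∈ K) :
    ∀ᶠ w in 𝓝[≠] x, f^[i] w ≠ f^[i] x := by
  have hd : Differentiable ℂ f^[i] := h.entire.iterate i
  rcases (hd.analyticAt x).eventually_eq_or_eventually_ne (analyticAt_const (v := f^[i] x)) with h1 | h1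
  · exfalso
    have han : AnalyticOnNhd ℂ f^[i] univ := fun y _ => hd.analyticAt y
    have h2 : f^[i] = fun _ => f^[i] x := han.eq_of_eventuallyEq (fun y _ => analyticAt_const) h1
    have h3 : f^[i] z = f^[i] x := congrFun h2 z
    exact h.off i (h3 ▸ ha)
  · exact h1

theorem pre_LG {f : ℂ → ℂ} {K : Set ℂ} {z : ℂ} (h : Dz f K z) {d : ℝ} (hd : DOK f K d) {x : ℂ} (hx : x ∈ K)
    (hp : PrePar f x) : LG f K d z x := by
  obtain ⟨i, hi⟩ := hp
  exact LG_pull h hd i hx (par_LG h hd.1 (h.maps.iterate i hx) hi)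

theorem pre_QG {f : ℂ → ℂ} {K : Set ℂ} {z : ℂ} (h : Dz f K z) {d : ℝ} (hd : DOK f K d) {x : ℂ} (hx : x ∈ K)
    (hp : PrePar f x) : QG f K d z x := by
  obtain ⟨i, hi⟩ := hp
  have ha : f^[i] x ∈ K := h.maps.iterate i hx
  obtain ⟨μ, hμ, hpull⟩ := SG_pull h hd i
  intro M
  obtain ⟨ρ, hρ, hq⟩ := par_QG h hd.1 ha hi (|M| / μ)
  have hcont : ContinuousAt f^[i] x := (h.entire.iterate i).continuous.continuousAt
  obtain ⟨r1, hr1, hc⟩ := Metric.continuousAt_iff.1 hcont ρ hρ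
  have hiso := P11b_isolated h i ha
  rw [eventually_nhdsWithin_iff] at hiso
  obtain ⟨r2, hr2, hiso⟩ := Metric.eventually_nhds_iff.1 hiso
  refine ⟨min r1 r2, lt_min hr1 hr2, fun w hw hne hdist => ?_⟩
  have h1 : dist (f^[i] w) (f^[i] x) < ρ := hc (hdist.trans_le (min_le_left _ _))
  have h2 : f^[i] w ≠ f^[i] x := hiso (hdist.trans_le (min_le_right _ _)) hne
  have h3 := hq (f^[i] w) (h.maps.iterate i hw) h2 h1
  have h4 := hpull w hw (|M| / μ) (by positivity) h3
  have h5 : μ * (|M| / μ) = |M| := by field_simp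
  rw [h5] at h4
  exact SG_mono (le_abs_self M) h4

end H74G
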