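import Pool.Agent.Lib.H74G.Defs
import Pool.Agent.Lib.H74G.P1
import Pool.Agent.Lib.H74G.C3

/-!
# Chunk P12 (M)
Copy the proof of `rec_good` in H74F/D1.lean: `near_point (core h) hd ha` gives `δ, θ`; `h.hrec a ha hr hnp` gives `n` with `Λ = ‖deriv f^[n] a‖` so large that `δ Λ (max 1 (2 Λ))^(-(1-θ)) ≥ 2`, `n ≥ 1`. `SG 2` with `N = n` and the `r` of `near_point`; the points
`f^[m] z`, `f^[n] (f^[m] z) = f^[n + m] z` are off `K` (`h.off`).
-/

set_option autoImplicit false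

open Set Filter Topology Metric

namespace H74G

open H74F

theorem rec_SG {f : ℂ → ℂ} {K : Set ℂ} {z : ℂ} (h : Dz f K z) {d : ℝ} (hd : 1 < d) {a : ℂ} (ha : a ∈ K)
    (hr : Rec f a) (hnp : ¬ Par f a) : SG f K d z 2 a := by
  obtain ⟨δ, θ, hδ, hθ, hnp2⟩ := near_point (core h) hd ha
  have ht : Tendsto (fun x : ℝ => x ^ θ) atTop atTop := tendsto_rpow_atTop hθ
  obtain ⟨C0, hC0⟩ := eventually_atTop.1 (ht.eventually_ge_atTop (4 / δ))
  obtain ⟨n, hn⟩ := h.hrec a ha hr hnp (max 1 C0)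
  have h1 : 1 < ‖deriv f^[n] a‖ := lt_of_le_of_lt (le_max_left _ _) hn
  have h2 : C0 < ‖deriv f^[n] a‖ := lt_of_le_of_lt (le_max_right _ _) hn
  set Λ : ℝ := ‖deriv f^[n] a‖ with hΛ
  have hΛ0 : 0 < Λ := by linarith
  have hn0 : n ≠ 0 := by
    rintro rfl
    have h3 : deriv f^[0] a = 1 := by
      rw [Function.iterate_zero]
      exact deriv_id a
    rw [hΛ, h3] at h1
    simp at h1
  obtain ⟨r, hr0, hrr⟩ := hnp2 n hΛ0
  refine ⟨n, r, hr0, fun m hm => ⟨n, Nat.one_le_iff_ne_zero.2 hn0, le_refl n, ?_⟩⟩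
  have hy0 : f^[m] z ∉ K := h.off m
  have hyn : f^[n] (f^[m] z) ∉ K := by
    rw [← Function.iterate_add_apply]
    exact h.off (n + m)
  refine le_trans ?_ (hrr (f^[m] z) hm hy0 hyn)
  have hmax : max 1 (2 * Λ) = 2 * Λ := max_eq_right (by linarith)
  rw [hmax]
  have h2Λ : 0 < 2 * Λ := by linarith
  have hsplit : (2 * Λ) ^ θ = (2 * Λ) * (2 * Λ) ^ (-(1 - θ)) := by
    rw [← Real.rpow_one_add' h2Λ.le (by intro hh; linarith)]
    congr 1
    ring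
  have hbig : 4 / δ ≤ (2 * Λ) ^ θ := hC0 (2 * Λ) (by linarith)
  rw [div_le_iff₀ hδ] at hbig
  have h4 : δ * Λ * (2 * Λ) ^ (-(1 - θ)) = ((2 * Λ) ^ θ * δ) / 2 := by
    rw [hsplit]; ring
  rw [h4]
  linarith

end H74G
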