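import Pool.Agent.Lib.H74G.Defs
import Pool.Agent.Lib.H74G.P11a
import Pool.Agent.Lib.H74G.C1

/-!
# Chunk P13 (M)
`SG_step`: if `SG 2 x` with `N1, r1` and `SG M (f^[j] x)` for all `1 ≤ j ≤ N1` (`M ≥ 0`) then `SG (2 M) x`: choose `N_j, r_j` for these finitely many `j`; `N = N1 + ∑ N_j`; `r ≤ r1` such that `dist y x < r` implies `dist (f^[j] y) (f^[j] x) < r_j` for `1 ≤ j ≤ N1`
(continuity, finitely many); for `y = f^[m] z`: `n1` with `2 ≤ GG n1 y`, then `f^[n1] y = f^[n1 + m] z` has `n2 ≤ N_(n1)` with `M ≤ GG n2 (f^[n1] y)`, `GG_add`. By induction on `k`: `SG (2^k) (f^[i] x)` for all `i ≥ i0` and `k ≥ 1`. Finally `SG_pull` with `i0`: `μ`, `k` with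
`2 ≤ μ 2^k`, `SG_mono`.
-/

set_option autoImplicit false

open Set Filter Topology Metric

namespace H74G

open H74F

private theorem p13_step {f : ℂ → ℂ} {K : Set ℂ} {z : ℂ} (h : Dz f K z) {d : ℝ} {M : ℝ} (hM : 0 ≤ M) {x : ℂ}
    (h2 : SG f K d z 2 x) (hj : ∀ j : ℕ, 1 ≤ j → SG f K d z M (f^[j] x)) : SG f K d z (2 * M) x := by
  have hc := core h
  obtain ⟨N1, r1, hr1, h1⟩ := h2
  choose! Nf rf hrf hf using hj
  -- a common radius
  have hev : ∀ᶠ y in 𝓝 x, ∀ j ∈ Finset.Icc 1 N1, dist (f^[j] y) (f^[j] x) < rf j := by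
    rw [Filter.eventually_all_finset]
    intro j hjm
    have hj1 : 1 ≤ j := (Finset.mem_Icc.1 hjm).1
    have hcont : Continuous f^[j] := (h.entire.iterate j).continuous
    have := hcont.continuousAt (x := x)
    exact (Metric.tendsto_nhds.1 this) (rf j) (hrf j hj1)
  obtain ⟨r2, hr2, hb⟩ := Metric.eventually_nhds_iff.1 hev
  refine ⟨N1 + ∑ j ∈ Finset.Icc 1 N1, Nf j, min r1 r2, lt_min hr1 hr2, ?_⟩
  intro m hm
  obtain ⟨n1, hn1, hn1N, hG1⟩ := h1 m (lt_of_lt_of_le hm (min_le_left _ _))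
  have hmem : n1 ∈ Finset.Icc 1 N1 := Finset.mem_Icc.2 ⟨hn1, hn1N⟩
  have hd := hb (lt_of_lt_of_le hm (min_le_right _ _)) n1 hmem
  rw [← Function.iterate_add_apply] at hd
  obtain ⟨n2, hn2, hn2N, hG2⟩ := hf n1 hn1 (n1 + m) hd
  refine ⟨n1 + n2, by omega, ?_, ?_⟩
  · have : Nf n1 ≤ ∑ j ∈ Finset.Icc 1 N1, Nf j := Finset.single_le_sum (fun _ _ => Nat.zero_le _) hmem
    omega
  · rw [GG_add hc, ← Function.iterate_add_apply]
    exact mul_le_mul hG1 hG2 hM (GG_nonneg hc d n1 _)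

theorem tree {f : ℂ → ℂ} {K : Set ℂ} {z : ℂ} (h : Dz f K z) {d : ℝ} (hd : DOK f K d) {x : ℂ} (hx : x ∈ K) {i0 : ℕ}
    (hs : ∀ i ≥ i0, SG f K d z 2 (f^[i] x)) : SG f K d z 2 x := by
  have key : ∀ k : ℕ, ∀ i ≥ i0, SG f K d z (2 ^ (k + 1)) (f^[i] x) := by
    intro k
    induction k with
    | zero => intro i hi; simpa using hs i hi
    | succ k ih =>
      intro i hi
      have := p13_step h (M := 2 ^ (k + 1)) (by positivity) (hs i hi) (fun j _ => by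
        rw [← Function.iterate_add_apply]
        exact ih (j + i) (by omega))
      rw [pow_succ' 2 (k + 1)]
      exact this
  obtain ⟨μ, hμ, hp⟩ := SG_pull h hd i0
  obtain ⟨k, hk⟩ := pow_unbounded_of_one_lt (2 / μ) (one_lt_two : (1 : ℝ) < 2)
  have h3 := hp x hx (2 ^ (k + 1)) (by positivity) (key k i0 le_rfl)
  refine SG_mono ?_ h3
  have h4 : 2 < 2 ^ k * μ := by rwa [div_lt_iff₀ hμ] at hk
  have h5 : (2 : ℝ) ^ (k + 1) = 2 * 2 ^ k := pow_succ' 2 k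
  have h6 : (0 : ℝ) < 2 ^ k := by positivity
  rw [h5]
  nlinarith

end H74G
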