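import Pool.Agent.Lib.H74G.Defs
import Pool.Agent.Lib.H74G.P11b

/-!
# Chunk P14a (S)
Let `x` be in the closure of the set; `x ∈ K` (closed). If `PrePar f x`: `pre_QG` with `M = 2` gives `r`; there is a point `w` of the set with `dist w x < r`; if `w = x` then `w` is `PrePar`, else `SG 2 w`: both impossible. If `¬ PrePar f x` and `SG 2 x` with `N, r`: a point `w` of
the set with `dist w x < r/2` satisfies `SG 2 w` with `N, r/2` (triangle inequality): impossible.
-/

set_option autoImplicit false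

open Set Filter Topology Metric

namespace H74G

open H74F

theorem bad_closed {f : ℂ → ℂ} {K : Set ℂ} {z : ℂ} (h : Dz f K z) {d : ℝ} (hd : DOK f K d) :
    IsClosed {x | x ∈ K ∧ ¬ PrePar f x ∧ ¬ SG f K d z 2 x} := by
  refine isClosed_of_closure_subset ?_
  intro x hx
  have hxK : x ∈ K := by
    have h1 : closure {x | x ∈ K ∧ ¬ PrePar f x ∧ ¬ SG f K d z 2 x} ⊆ closure K :=
      closure_mono (fun w hw => hw.1)
    have h2 := h1 hx
    rwa [h.cpt.isClosed.closure_eq] at h2
  rw [Metric.mem_closure_iff] at hx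
  have hpre : ¬ PrePar f x := by
    intro hp
    obtain ⟨r, hr, hr2⟩ := pre_QG h hd hxK hp 2
    obtain ⟨w, hw, hwd⟩ := hx r hr
    rcases eq_or_ne w x with hwx | hwx
    · subst hwx
      exact hw.2.1 hp
    · refine hw.2.2 (hr2 w hw.1 hwx ?_)
      rw [dist_comm]
      exact hwd
  refine ⟨hxK, hpre, ?_⟩
  rintro ⟨N, r, hr, hN⟩
  obtain ⟨w, hw, hwd⟩ := hx (r / 2) (by linarith)
  refine hw.2.2 ⟨N, r / 2, by linarith, ?_⟩
  intro m hm
  refine hN m ?_
  have h1 : dist (f^[m] z) x ≤ dist (f^[m] z) w + dist w x := dist_triangle _ _ _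
  have h2 : dist w x < r / 2 := by
    rw [dist_comm]
    exact hwd
  linarith

end H74G
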