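import Pool.Agent.Lib.H74G.Defs
import Pool.Agent.Lib.H74G.P14a
import Pool.Agent.Lib.H74G.P13
import Pool.Agent.Lib.H74G.P12
import Pool.Agent.Lib.H74F.D3

/-!
# Chunk P14b (M)
Let `B` be the set of `bad_closed`, suppose it is not empty. Zorn as in H74F/D5.lean (copy it): the family of the closed `A ⊆ K` with `MapsTo f A A` and `(A ∩ B).Nonempty` (contains `K`; for chains use compactness of the `A ∩ B`) has a minimal element `A`. Let `x ∈ A ∩ B`. By `tree`
(contrapositive) for every `i0` there is `i ≥ i0` with `¬ SG 2 (f^[i] x)`, and `f^[i] x ∈ K` is not `PrePar` (`f^[j] (f^[i] x) = f^[j + i] x`), so `f^[i] x ∈ B` for infinitely many `i`; the compact set `B` then contains a cluster point of the orbit of `x`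
(`IsCompact.exists_mapClusterPt_of_frequently`). So the omega limit set `Ω ⊆ A` of `x` (closed, invariant: H74F.D3) meets `B`, and `Ω = A ∋ x` by minimality: `x` is recurrent, not `Par` (`PrePar` with `i = 0`), so `SG 2 x` by `rec_SG`: contradiction.
-/

set_option autoImplicit false

open Set Filter Topology Metric

namespace H74G

open H74F

theorem all_SG {f : ℂ → ℂ} {K : Set ℂ} {z : ℂ} (h : Dz f K z) {d : ℝ} (hd : DOK f K d) {x : ℂ} (hx : x ∈ K)
    (hp : ¬ PrePar f x) : SG f K d z 2 x := by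
  by_contra hcon
  have hfc : Continuous f := h.entire.continuous
  obtain ⟨B, hB⟩ : ∃ B : Set ℂ, B = {x | x ∈ K ∧ ¬ PrePar f x ∧ ¬ SG f K d z 2 x} := ⟨_, rfl⟩
  have memB : ∀ x, x ∈ B ↔ x ∈ K ∧ ¬ PrePar f x ∧ ¬ SG f K d z 2 x := fun x => by
    rw [hB]
    exact Iff.rfl
  have hbc : IsClosed B := by
    rw [hB]
    exact bad_closed h hd
  have hBK : B ⊆ K := fun x hx => ((memB x).1 hx).1
  have hBc : IsCompact B := h.cpt.of_isClosed_subset hbc hBK
  have hxB : x ∈ B := (memB x).2 ⟨hx, hp, hcon⟩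
  obtain ⟨S, hS⟩ : ∃ S : Set (Set ℂ), S = {A | IsClosed A ∧ A ⊆ K ∧ MapsTo f A A ∧ (A ∩ B).Nonempty} :=
    ⟨_, rfl⟩
  have memS : ∀ A, A ∈ S ↔ IsClosed A ∧ A ⊆ K ∧ MapsTo f A A ∧ (A ∩ B).Nonempty := fun A => by
    rw [hS]
    exact Iff.rfl
  have hKS : K ∈ S := (memS K).2 ⟨h.cpt.isClosed, subset_rfl, h.maps, x, hx, hxB⟩
  obtain ⟨A, hAK, hAmin⟩ := zorn_superset_nonempty S (by
    intro c hc hch hcne
    refine ⟨⋂₀ c, (memS _).2 ⟨?_, ?_, ?_, ?_⟩, fun s hs => sInter_subset_of_mem hs⟩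
    · exact isClosed_sInter fun s hs => ((memS s).1 (hc hs)).1
    · obtain ⟨s, hs⟩ := hcne
      exact (sInter_subset_of_mem hs).trans ((memS s).1 (hc hs)).2.1
    · intro x hx
      rw [mem_sInter] at hx ⊢
      exact fun s hs => ((memS s).1 (hc hs)).2.2.1 (hx s hs)
    · have hne : Nonempty c := hcne.to_subtype
      have key := IsCompact.nonempty_iInter_of_directed_nonempty_isCompact_isClosed
        (fun s : c => (s : Set ℂ) ∩ B) (by
          intro s t
          rcases hch.total s.2 t.2 with hst | hst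
          · exact ⟨s, subset_rfl, inter_subset_inter_left _ hst⟩
          · exact ⟨t, inter_subset_inter_left _ hst, subset_rfl⟩)
        (fun s => ((memS _).1 (hc s.2)).2.2.2)
        (fun s => (h.cpt.of_isClosed_subset ((memS _).1 (hc s.2)).1 ((memS _).1 (hc s.2)).2.1).inter_right hbc)
        (fun s => ((memS _).1 (hc s.2)).1.inter hbc)
      obtain ⟨x, hx⟩ := key
      rw [mem_iInter] at hx
      refine ⟨x, mem_sInter.2 fun s hs => (hx ⟨s, hs⟩).1, ?_⟩
      obtain ⟨s, hs⟩ := hcne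
      exact (hx ⟨s, hs⟩).2) K hKS
  obtain ⟨hAc, -, hAm, y, hyA, hyB⟩ := (memS A).1 hAmin.prop
  obtain ⟨hyK, hyp, hys⟩ := (memB y).1 hyB
  have hfr : ∃ᶠ n in atTop, f^[n] y ∈ B := by
    rw [frequently_atTop]
    intro i0
    by_contra hno
    refine hys (tree h hd hyK (i0 := i0) ?_)
    intro i hi
    by_contra hsg
    refine hno ⟨i, hi, (memB _).2 ⟨h.maps.iterate i hyK, ?_, hsg⟩⟩
    rintro ⟨j, hj⟩
    refine hyp ⟨j + i, ?_⟩
    rw [Function.iterate_add_apply]
    exact hj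
  obtain ⟨a, haB, ha⟩ := hBc.exists_mapClusterPt_of_frequently hfr
  have hΩ : {a | MapClusterPt a atTop (fun n : ℕ => f^[n] y)} ∈ S :=
    (memS _).2 ⟨(omega_compact h.cpt h.maps hyK).isClosed, omega_sub h.cpt.isClosed h.maps hyK,
      omega_maps hfc y, a, ha, haB⟩
  have hsub := hAmin.le_of_le hΩ (omega_sub hAc hAm hyA)
  have hrec : Rec f y := hsub hyA
  have hnp : ¬ Par f y := fun hpar => hyp ⟨0, hpar⟩
  exact hys (rec_SG h hd.1 hyK hrec hnp)

end H74G
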