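import Pool.Agent.Lib.H74G.Defs
import Pool.Agent.Lib.H74G.P14b
import Pool.Agent.Lib.H74G.P11b
import Pool.Agent.Lib.H74G.C1

/-!
# Chunk P15 (M)
Every `x ∈ K` has `r x > 0` such that for `dist (f^[m] z) x < r x` there is `n ≥ 1` with `2 ≤ GG n (f^[m] z)` (`pre_LG` with `M = 2` if `PrePar`, `all_SG` otherwise). Compactness (as in H74F/D2.lean `block`): `η > 0` with: `infDist (f^[m] z) K < η` implies such an `n`. `h.near η`: `M0`.
For `m ≥ M0` by induction on `j` (as in H74F/D6.lean) there is `n ≥ j` with `2^j ≤ GG n (f^[m] z)`: `GG_add`, the block at `f^[n] (f^[m] z) = f^[n + m] z`. Given `C, N` take `j ≥ N` with `C ≤ 2^j`.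
-/

set_option autoImplicit false

open Set Filter Topology Metric

namespace H74G

open H74F

theorem growth2 {f : ℂ → ℂ} {K : Set ℂ} {z : ℂ} (h : Dz f K z) {d : ℝ} (hd : DOK f K d) :
    ∃ M0 : ℕ, ∀ m ≥ M0, ∀ (C : ℝ) (N : ℕ), ∃ n ≥ N, C ≤ GG f K d n (f^[m] z) := by
  have hc : Dc f K := core h
  have hloc : ∀ x : K, ∃ r : ℝ, 0 < r ∧ ∀ m : ℕ, dist (f^[m] z) (x : ℂ) < r →
      ∃ n : ℕ, 1 ≤ n ∧ 2 ≤ GG f K d n (f^[m] z) := by
    intro x
    by_cases hp : PrePar f (x : ℂ)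
    · exact pre_LG h hd x.2 hp 2
    · obtain ⟨N, r, hr, hN⟩ := all_SG h hd x.2 hp
      refine ⟨r, hr, fun m hm => ?_⟩
      obtain ⟨n, hn1, _, hn2⟩ := hN m hm
      exact ⟨n, hn1, hn2⟩
  choose r hr hloc' using hloc
  obtain ⟨t, ht⟩ := h.cpt.elim_finite_subcover (fun x : K => Metric.ball (x : ℂ) (r x / 2))
    (fun x => Metric.isOpen_ball) (by
      intro x hx
      rw [Set.mem_iUnion]
      exact ⟨⟨x, hx⟩, Metric.mem_ball_self (by have := hr ⟨x, hx⟩; linarith)⟩)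
  have hne : K.Nonempty := h.inf.nonempty
  have htne : t.Nonempty := by
    obtain ⟨x, hx⟩ := hne
    have := ht hx
    rw [Set.mem_iUnion₂] at this
    obtain ⟨i, hi, _⟩ := this
    exact ⟨i, hi⟩
  obtain ⟨x0, hx0, hmin⟩ := t.exists_min_image r htne
  obtain ⟨M0, hM0⟩ := h.near (r x0 / 2) (by have := hr x0; linarith)
  have hblock : ∀ m ≥ M0, ∃ n : ℕ, 1 ≤ n ∧ 2 ≤ GG f K d n (f^[m] z) := by
    intro m hm
    obtain ⟨x', hx', hyx'⟩ := (Metric.infDist_lt_iff hne).1 (hM0 m hm)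
    have := ht hx'
    rw [Set.mem_iUnion₂] at this
    obtain ⟨i, hi, hix⟩ := this
    rw [Metric.mem_ball] at hix
    have h1 : dist (f^[m] z) (i : ℂ) < r i := by
      have h2 := hmin i hi
      calc dist (f^[m] z) (i : ℂ) ≤ dist (f^[m] z) x' + dist x' i := dist_triangle _ _ _
        _ < r i := by linarith
    exact hloc' i m h1
  refine ⟨M0, fun m hm C N => ?_⟩
  have key : ∀ j : ℕ, ∃ n ≥ j, (2 : ℝ) ^ j ≤ GG f K d n (f^[m] z) := by
    intro j
    induction j with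
    | zero => exact ⟨0, le_rfl, by rw [GG_zero hc, pow_zero]⟩
    | succ j ih =>
      obtain ⟨n, hn, hG⟩ := ih
      obtain ⟨k, hk1, hk⟩ := hblock (n + m) (by omega)
      rw [Function.iterate_add_apply] at hk
      refine ⟨n + k, by omega, ?_⟩
      rw [GG_add hc, pow_succ]
      exact mul_le_mul hG hk (by norm_num) (le_trans (by positivity) hG)
  obtain ⟨j, hj⟩ := ((tendsto_pow_atTop_atTop_of_one_lt (one_lt_two : (1 : ℝ) < 2)).eventually_ge_atTop C).exists
  obtain ⟨n, hn, hG⟩ := key (max j N)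
  refine ⟨n, le_trans (le_max_right _ _) hn, le_trans hj (le_trans ?_ hG)⟩
  exact pow_le_pow_right₀ one_le_two (le_max_left _ _)

end H74G
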