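import Pool.Agent.Lib.H74G.Defs
import Pool.Agent.Lib.H74G.P1
import Pool.Agent.Lib.H74G.P15
import Pool.Agent.Lib.H74G.B6
import Pool.Agent.Lib.H74G.E2
import Pool.Agent.Lib.H74F.A5
import Pool.Agent.Lib.H74F.A10
import Pool.Agent.Lib.H74F.A8
import Pool.Agent.Lib.H74F.A11

/-!
# Chunk P16 (M)
Suppose there is no such `a`. For `z ∈ D` the structure `Dz f (KK f D) z` holds: `KK_compact`, `KK_maps`, `KK_infinite`, `KK_eq` (omega), `KK_disj` (off), `unif` (near); see H74F/F1.lean for the same assembly. `exists_d (core _)`: `d`; `growth2`: `M0`; `upper` (H74G.E2) with `q = M0`: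
`GG n (f^[M0] z) ≤ C` for `n ≥ N'`; `growth2` with `m = M0`, `C + 1`, `N'`: contradiction.
-/

set_option autoImplicit false

open Set Filter Topology Metric

namespace H74G

open H74F

theorem main2 {f : ℂ → ℂ} {D : Set ℂ} {R : ℝ} (h : Wd f D R) :
    ∃ a ∈ KK f D, Rec f a ∧ ¬ Par f a ∧ ∃ C : ℝ, ∀ n : ℕ, ‖deriv f^[n] a‖ ≤ C := by
  by_contra hcon
  obtain ⟨z, hz⟩ := h.ne
  obtain ⟨ρ, hρ, hball, hu⟩ := unif h hz
  have hD : Dz f (KK f D) z :=
    { entire := h.entire
      cpt := KK_compact h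
      maps := KK_maps h
      inf := KK_infinite h
      omega := KK_eq h hz
      off := fun n hi => Set.disjoint_left.1 (KK_disj h n) ⟨z, hz, rfl⟩ hi
      near := by
        intro ε hε
        obtain ⟨N, hN⟩ := hu ε hε
        exact ⟨N, fun n hn => (hN n hn z (mem_closedBall_self hρ.le)).1⟩
      hrec := by
        intro a ha hr hp C
        by_contra h1
        refine hcon ⟨a, ha, hr, hp, C, fun n => ?_⟩
        by_contra h2
        exact h1 ⟨n, not_le.1 h2⟩ }
  obtain ⟨d, hd⟩ := H74G.exists_d (core hD)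
  obtain ⟨M0, hM⟩ := growth2 hD hd
  obtain ⟨C, N', hC⟩ := H74G.upper h (core hD) hd.1 hz M0
  obtain ⟨n, hn, hn'⟩ := hM M0 le_rfl (C + 1) N'
  have h3 := hC n hn
  linarith

end H74G
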